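import Pool.Agent.TH615.SD.Bund

/-!
# SD-K5, part 9: no equivariant complex structure of the wrong orientation
-/

set_option linter.unusedSimpArgs false
open scoped ContDiff Topology
open Set Matrix Filter

noncomputable section

namespace Pool.Agent.TH615.SD
open Pool.Agent.TH179.SD

variable {J : C5 → C5 →L[ℝ] C5}

/-- the complex structure as a linear map -/
def JL (J : C5 → C5 →L[ℝ] C5) (z : C5) : C5 →ₗ[ℝ] C5 := (J z).toLinearMap

lemma pj (hJ : JBad J) (x : Z) : PJ (tw x) (JL J (tw x)) where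
  unit := hp_tw x
  zero := hJ.zero _ (tw_mem x)
  perp := hJ.perp _ (tw_mem x)
  sq := hJ.sq _ (tw_mem x)
  isom u hu := by
    rw [ip_self_eq, ip_self_eq]
    exact hJ.isom _ (tw_mem x) u hu
  neg := by
    obtain ⟨L, Φ, h1, h2, h3, h4⟩ := hJ.neg _ (tw_mem x)
    refine ⟨L.toLinearMap, Φ.toLinearMap, ?_, h2, h3, h4⟩
    exact (h1 _).2 ⟨1, (one_smul ℂ _).symm⟩

lemma gm_cont : Continuous (gm : C5 → MM) := LinearMap.continuous_of_finiteDimensional gm

lemma DD_cont (hJ : JBad J) : Continuous fun x : Z => DD (JL J (tw x)) := by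
  have h1 : Continuous fun x : Z => J (tw x) := hJ.cont.comp_continuous tw_cont tw_mem
  have h2 : ∀ a : Fin 10, Continuous fun x : Z => gm (rr a) * gm (JL J (tw x) (rr a)) := by
    intro a
    have h3 : Continuous fun x : Z => J (tw x) (rr a) := h1.clm_apply continuous_const
    exact (continuous_const : Continuous fun _ : Z => gm (rr a)).mul (gm_cont.comp h3)
  have h4 : Continuous fun x : Z => ∑ a : Fin 10, gm (rr a) * gm (JL J (tw x) (rr a)) :=
    continuous_finsetSum _ fun a _ => h2 a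
  exact h4.const_smul (Complex.I / 4)

lemma PP_cont : Continuous fun x : Z => PP (tw x) := continuous_const.mul nn_cont

lemma cU_PP (t : Circle) (v : C5) : cU t (PP v) = PP (rho t v) := by
  rw [PP, cU_mul, cU_Od, cU_nn]; rfl

lemma prS : Pr (fun x => PP (tw x)) where
  cont := PP_cont
  idem x := PP_sq (hp_tw x)
  herm x := PP_herm _
  equiv t x := by rw [cU_PP, tw_rot]

/-- the projection to the eigenspace -/
def EW (J : C5 → C5 →L[ℝ] C5) (s : ℂ) (x : Z) : MM := EE s (tw x) (JL J (tw x))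

lemma prW (hJ : JBad J) {s : ℂ} (h1 : s * s = 1) (h2 : star s = s) : Pr (EW J s) where
  cont := by
    have h3 : Continuous fun x : Z => PP (tw x) * DD (JL J (tw x)) := PP_cont.mul (DD_cont hJ)
    have h4 : Continuous fun x : Z => s • (PP (tw x) * DD (JL J (tw x))) := h3.const_smul s
    have h5 : Continuous fun x : Z => PP (tw x) + s • (PP (tw x) * DD (JL J (tw x))) :=
      PP_cont.add h4
    exact h5.const_smul (1 / 2 : ℂ)
  idem x := (pj hJ x).EE_sq h1
  herm x := (pj hJ x).EE_herm h2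
  equiv t x := by
    unfold EW EE
    have h : cU t (DD (JL J (tw x))) = DD (JL J (rho t (tw x))) :=
      cU_DD t _ _ fun u => hJ.equiv t _ (tw_mem x) u
    rw [cU_smul, cU_add, cU_smul, cU_mul, cU_PP, h, tw_rot]

/-- the bundle of odd forms killed by `c(z)` -/
def S : Bun := mkB _ prS
/-- the first half -/
def W (hJ : JBad J) : Bun := mkB _ (prW hJ (s := 1) (by norm_num) (by simp))
/-- the second half -/
def W' (hJ : JBad J) : Bun := mkB _ (prW hJ (s := -1) (by norm_num) (by simp))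

lemma S_iso (hJ : JBad J) : S.Iso ((W hJ).sum (W' hJ)) := by
  apply mkB_split
  · intro x
    exact (EE_add 1).symm
  · intro x
    exact (pj hJ x).EE_orth (by norm_num)

/-- the weights of the conjugate bundle -/
def cV (t : Circle) (X : MM) : MM := Matrix.of fun A B => (t : ℂ) ^ (wt A - (-wt B + 3)) * X A B

lemma Mt_ne {C B : I5} (h : Mt C B ≠ 0) : C = Bᶜ := by
  by_contra hc
  apply h
  simp only [Mt, of_apply]
  rw [if_neg hc]

lemma cV_Mt (t : Circle) (X : MM) : cU t X * Mt = cV t (X * Mt) := by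
  ext A B
  simp only [cV, of_apply]
  rw [mul_apply, mul_apply, Finset.mul_sum]
  refine Finset.sum_congr rfl fun C _ => ?_
  rw [cU_apply]
  by_cases h : Mt C B = 0
  · rw [h]; simp
  · have h1 := Mt_ne h
    rw [h1, wt_compl]
    have h2 : wt A - (-wt B + 3) = wt A - (3 - wt B) := by ring
    rw [h2]; ring

lemma cm_cU (t : Circle) (Y : MM) (A B : I5) :
    cm (cU t Y) A B = (t : ℂ) ^ (wt B - wt A) * cm Y A B := by
  simp only [cm, map_apply, cU_apply, map_mul, map_zpow₀]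
  rw [← Circle.coe_inv_eq_conj, Circle.coe_inv, _root_.inv_zpow, ← _root_.zpow_neg]
  congr 2
  ring

lemma cV_cm (t : Circle) (X Y : MM) : cV t X * cm (cU t Y) = cV t (X * cm Y) := by
  ext A B
  simp only [cV, of_apply]
  rw [mul_apply, mul_apply, Finset.mul_sum]
  refine Finset.sum_congr rfl fun C _ => ?_
  rw [cm_cU]
  simp only [of_apply]
  have h2 : (t : ℂ) ^ (wt A - (-wt B + 3)) =
      (t : ℂ) ^ (wt A - (-wt C + 3)) * (t : ℂ) ^ (wt B - wt C) := by
    rw [← zpow_add₀ (Circle.coe_ne_zero t)]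
    congr 1; ring
  rw [h2]; ring

/-- the isomorphism -/
def vv (J : C5 → C5 →L[ℝ] C5) (x : Z) : MM := TT (tw x) * cm (EW J 1 x)

lemma cm_cont {X : Type*} [TopologicalSpace X] {h : X → MM} (hh : Continuous h) :
    Continuous fun x => cm (h x) := by
  refine continuous_matrix fun i j => ?_
  exact Complex.continuous_conj.comp (hh.matrix_elem i j)

lemma vv_cont (hJ : JBad J) : Continuous (vv J) := by
  have h1 := (prW hJ (s := 1) (by norm_num) (by simp)).cont
  exact (cc_cont.mul continuous_const).mul (cm_cont h1)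

lemma vv_rot (hJ : JBad J) (t : Circle) (x : Z) : vv J (rot t x) = cV t (vv J x) := by
  have h1 := (prW hJ (s := 1) (by norm_num) (by simp)).equiv t x
  unfold vv
  rw [h1, tw_rot, TT, ← cU_cc, cV_Mt, cV_cm]
  rfl

lemma vv_H (hJ : JBad J) (x : Z) : (vv J x)ᴴ = cm (EW J 1 x) * (TT (tw x))ᴴ := by
  have h1 := (prW hJ (s := 1) (by norm_num) (by simp)).herm x
  unfold vv
  rw [conjTranspose_mul, ← cm_H, h1]

lemma vv_mul (hJ : JBad J) (x : Z) : vv J x * (vv J x)ᴴ = EW J (-1) x := by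
  have h0 := (prW hJ (s := 1) (by norm_num) (by simp)).idem x
  have h1 : TT (tw x) * cm (EW J 1 x) = EW J (-1) x * TT (tw x) := (pj hJ x).TT_EE
  have h2 : EW J (-1) x * nn (tw x) = EW J (-1) x := (pj hJ x).EE_nn (-1)
  rw [vv_H hJ, vv]
  calc TT (tw x) * cm (EW J 1 x) * (cm (EW J 1 x) * (TT (tw x))ᴴ) =
      TT (tw x) * (cm (EW J 1 x) * cm (EW J 1 x)) * (TT (tw x))ᴴ := by noncomm_ring
    _ = (TT (tw x) * cm (EW J 1 x)) * (TT (tw x))ᴴ := by rw [← cm_mul, h0]
    _ = EW J (-1) x * (TT (tw x) * (TT (tw x))ᴴ) := by rw [h1, mul_assoc]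
    _ = _ := by rw [TT_mul_H, h2]

lemma vv_mul' (hJ : JBad J) (x : Z) : (vv J x)ᴴ * vv J x = cm (EW J 1 x) := by
  have h0 := (prW hJ (s := 1) (by norm_num) (by simp)).idem x
  have h2 : EW J 1 x * nn (tw x) = EW J 1 x := (pj hJ x).EE_nn 1
  rw [vv_H hJ, vv]
  calc cm (EW J 1 x) * (TT (tw x))ᴴ * (TT (tw x) * cm (EW J 1 x)) =
      cm (EW J 1 x) * ((TT (tw x))ᴴ * TT (tw x)) * cm (EW J 1 x) := by noncomm_ring
    _ = cm (EW J 1 x * nn (tw x) * EW J 1 x) := by rw [TTH_TT, cm_mul, cm_mul]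
    _ = _ := by rw [h2, h0]

lemma W'_iso (hJ : JBad J) : (W' hJ).Iso ((W hJ).conj.shift 3) := by
  refine ⟨fun x => (vv J x)ᴴ, vv J, (vv_cont hJ).matrix_conjTranspose, vv_cont hJ, vv_mul hJ,
    vv_mul' hJ, ?_, ?_⟩
  · intro t x i j
    change (vv J (rot t x))ᴴ i j = (t : ℂ) ^ (-wt i + 3 - wt j) * (vv J x)ᴴ i j
    rw [vv_rot hJ]
    simp only [conjTranspose_apply, cV, of_apply, star_mul', Complex.star_def, map_zpow₀]
    rw [← Circle.coe_inv_eq_conj, Circle.coe_inv, _root_.inv_zpow, ← _root_.zpow_neg]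
    congr 2
    ring
  · intro t x i j
    rw [vv_rot hJ]; rfl

/-! ### the Hilbert function -/

lemma EA_orth {i j : ℕ} (h : i ≠ j) (x : Z) : EA i x * EA j x = 0 := by
  unfold EA
  calc Q i * nn (tw x) * (Q j * nn (tw x)) = Q i * (nn (tw x) * Q j) * nn (tw x) := by
        noncomm_ring
    _ = (Q i * Q j) * (nn (tw x) * nn (tw x)) := by rw [← Q_nn]; noncomm_ring
    _ = 0 := by rw [Q_mul, if_neg h, zero_mul]

lemma Pr.add {F G : Z → MM} (hF : Pr F) (hG : Pr G) (h : ∀ x, F x * G x = 0) :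
    Pr (fun x => F x + G x) where
  cont := hF.cont.add hG.cont
  idem x := by
    have h3 : G x * F x = 0 := by
      have h := congrArg conjTranspose (h x)
      rw [conjTranspose_mul, hF.herm, hG.herm, conjTranspose_zero] at h
      exact h
    rw [add_mul, mul_add, mul_add, hF.idem, hG.idem, h, h3, add_zero, zero_add]
  herm x := by rw [conjTranspose_add, hF.herm, hG.herm]
  equiv t x := by rw [hF.equiv, hG.equiv, cU_add]

/-- degrees 3 and 5 -/
def A35 : Bun := mkB _ ((prA 3).add (prA 5) (EA_orth (by norm_num)))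

lemma A35_iso : A35.Iso ((A 3).sum (A 5)) :=
  mkB_split _ _ _ (fun _ => rfl) (EA_orth (by norm_num))

lemma S_iso' : S.Iso ((A 1).sum A35) := by
  apply mkB_split
  · intro x
    rw [PP, Od_eq]
    unfold EA
    noncomm_ring
  · intro x
    rw [mul_add, EA_orth (by norm_num), EA_orth (by norm_num), add_zero]

variable {f : Bun → ℤ → ℤ}

lemma ev {p : ℤ → Prop} (h : ∃ K : ℤ, ∀ k, K ≤ k → p k) : ∀ᶠ k in atTop, p k :=
  eventually_atTop.2 h

/-- the Hilbert function of the forms of degree `j` -/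
def tj (j : ℕ) (x : ℚ) : ℚ := ∑ A : Ij j, Bq (x + wt A.1)

lemma f_A0 (hf : DualData f) : ∀ᶠ k in atTop, (f (A 0) k : ℚ) = 0 := by
  filter_upwards [ev (hf.iso _ _ A0_triv), ev (hf.triv (Fin 0) fun _ => 0)] with k h1 h2
  rw [h1, h2]; simp

lemma f_A (hf : DualData f) (j : ℕ) :
    ∀ᶠ k in atTop, (f (A (j + 1)) k : ℚ) = tj j k - f (A j) k := by
  filter_upwards [ev (hf.iso _ _ (Lam_iso j)), ev (hf.sum (A j) (B j)),
    ev (hf.iso _ _ (Lam_triv j)), ev (hf.triv (Ij j) fun A => wt A.1),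
    ev (hf.iso _ _ (B_iso j))] with k h1 h2 h3 h4 h5
  have h6 : (f (Lam j) k : ℚ) = tj j k := by rw [h3, h4]; rfl
  rw [h1, h2, h5] at h6
  push_cast at h6
  linarith

lemma f_S (hf : DualData f) : ∀ᶠ k in atTop, (f S k : ℚ) =
    3 * tj 0 k - 2 * tj 1 k + 2 * tj 2 k - tj 3 k + tj 4 k := by
  filter_upwards [ev (hf.iso _ _ S_iso'), ev (hf.sum (A 1) A35), ev (hf.iso _ _ A35_iso),
    ev (hf.sum (A 3) (A 5)), f_A0 hf, f_A hf 0, f_A hf 1, f_A hf 2, f_A hf 3, f_A hf 4]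
    with k h1 h2 h3 h4 a0 a1 a2 a3 a4 a5
  rw [h1, h2, h3, h4]
  push_cast
  norm_num at a1 a2 a3 a4 a5
  rw [a5, a4, a3, a2, a1, a0]
  ring

/-! ### polynomials -/

open Polynomial in
/-- the polynomial `Bq` -/
def Bp : Polynomial ℚ := C (1 / 24) * ((X + 1) * (X + 2) * (X + 3) * (X + 4))

open Polynomial in
lemma Bp_eval (x : ℚ) : Bp.eval x = Bq x := by
  simp only [Bp, Bq, eval_mul, eval_C, eval_add, eval_X, eval_one, eval_ofNat]
  ring

open Polynomial in
/-- the polynomial of `tj` -/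
def tp (j : ℕ) : Polynomial ℚ := ∑ A : Ij j, Bp.comp (X + C (wt A.1 : ℚ))

open Polynomial in
lemma tp_eval (j : ℕ) (x : ℚ) : (tp j).eval x = tj j x := by
  simp only [tp, tj, eval_finsetSum, eval_comp, eval_add, eval_X, eval_C, Bp_eval]

lemma Bq_val (m : ℤ) (h1 : -1 ≤ m) (h2 : m ≤ 4) :
    Bq (-4 + m) = if m = -1 ∨ m = 4 then 1 else 0 := by
  interval_cases m <;> norm_num [Bq]

lemma wt_bd (A : I5) (h : A.card ≤ 4) : -1 ≤ wt A ∧ wt A ≤ 4 := by
  revert A
  decide +kernel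

lemma tj_val (j : ℕ) (hj : j ≤ 4) : tj j (-4) =
    ((Finset.univ.filter fun A : Ij j => wt A.1 = -1 ∨ wt A.1 = 4).card : ℚ) := by
  rw [tj, ← Finset.sum_boole]
  refine Finset.sum_congr rfl fun A _ => ?_
  have h := wt_bd A.1 (by rw [A.2]; exact hj)
  rw [Bq_val _ h.1 h.2]

lemma tj0 : tj 0 (-4) = 0 := by
  rw [tj_val 0 (by norm_num)]
  have : (Finset.univ.filter fun A : Ij 0 => wt A.1 = -1 ∨ wt A.1 = 4).card = 0 := by
    decide +kernel
  rw [this]; simp

lemma tj1 : tj 1 (-4) = 1 := by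
  rw [tj_val 1 (by norm_num)]
  have : (Finset.univ.filter fun A : Ij 1 => wt A.1 = -1 ∨ wt A.1 = 4).card = 1 := by
    decide +kernel
  rw [this]; simp

lemma tj2 : tj 2 (-4) = 0 := by
  rw [tj_val 2 (by norm_num)]
  have : (Finset.univ.filter fun A : Ij 2 => wt A.1 = -1 ∨ wt A.1 = 4).card = 0 := by
    decide +kernel
  rw [this]; simp

lemma tj3 : tj 3 (-4) = 0 := by
  rw [tj_val 3 (by norm_num)]
  have : (Finset.univ.filter fun A : Ij 3 => wt A.1 = -1 ∨ wt A.1 = 4).card = 0 := by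
    decide +kernel
  rw [this]; simp

lemma tj4 : tj 4 (-4) = 1 := by
  rw [tj_val 4 (by norm_num)]
  have : (Finset.univ.filter fun A : Ij 4 => wt A.1 = -1 ∨ wt A.1 = 4).card = 1 := by
    decide +kernel
  rw [this]; simp

lemma poly_diff (P : Polynomial ℚ) (hP : P.natDegree ≤ 4) (x : ℚ) :
    P.eval x = 5 * P.eval (x + 1) - 10 * P.eval (x + 2) + 10 * P.eval (x + 3) -
      5 * P.eval (x + 4) + P.eval (x + 5) := by
  rw [P.as_sum_range' 5 (by omega)]
  simp only [Finset.sum_range_succ, Finset.sum_range_zero, Polynomial.eval_add,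
    Polynomial.eval_monomial, Polynomial.eval_zero]
  ring

lemma poly_int (P : Polynomial ℚ) (hP : P.natDegree ≤ 4) (K : ℤ)
    (h : ∀ k : ℤ, K ≤ k → ∃ m : ℤ, P.eval (k : ℚ) = m) (k : ℤ) : ∃ m : ℤ, P.eval (k : ℚ) = m := by
  have h1 : ∀ n : ℕ, ∀ k : ℤ, K - n ≤ k → ∃ m : ℤ, P.eval (k : ℚ) = m := by
    intro n
    induction n with
    | zero => intro k hk; exact h k (by simpa using hk)
    | succ n ih =>
      intro k hk
      push_cast at hk
      obtain ⟨m1, h1⟩ := ih (k + 1) (by omega)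
      obtain ⟨m2, h2⟩ := ih (k + 2) (by omega)
      obtain ⟨m3, h3⟩ := ih (k + 3) (by omega)
      obtain ⟨m4, h4⟩ := ih (k + 4) (by omega)
      obtain ⟨m5, h5⟩ := ih (k + 5) (by omega)
      push_cast at h1 h2 h3 h4 h5
      refine ⟨5 * m1 - 10 * m2 + 10 * m3 - 5 * m4 + m5, ?_⟩
      rw [poly_diff P hP, h1, h2, h3, h4, h5]
      push_cast; ring
  exact h1 (K - k).toNat k (by omega)

theorem taskNoJ : TaskNoJ := by
  rintro ⟨f, hf⟩ ⟨J, hJ⟩
  obtain ⟨P, hP, hK⟩ := hf.dual (W hJ)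
  have e1 : ∀ᶠ k : ℤ in atTop, (f (W hJ) k : ℚ) = P.eval (k : ℚ) ∧
      (f (W hJ).conj k : ℚ) = P.eval (-(k : ℚ) - 5) := ev hK
  have e2 : ∀ᶠ k : ℤ in atTop, (f (W hJ).conj (k + 3) : ℚ) = P.eval (-((k + 3 : ℤ) : ℚ) - 5) := by
    have h1 : Tendsto (fun k : ℤ => k + 3) atTop atTop := tendsto_atTop_add_const_right _ _ tendsto_id
    exact (h1.eventually e1).mono fun k hk => hk.2
  have e3 : ∀ᶠ k : ℤ in atTop, P.eval (k : ℚ) + P.eval (-(k : ℚ) - 8) =
      3 * tj 0 k - 2 * tj 1 k + 2 * tj 2 k - tj 3 k + tj 4 k := by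
    filter_upwards [e1, e2, f_S hf, ev (hf.iso _ _ (S_iso hJ)), ev (hf.sum (W hJ) (W' hJ)),
      ev (hf.iso _ _ (W'_iso hJ)), ev (hf.shift (W hJ).conj 3)] with k h1 h2 h3 h4 h5 h6 h7
    rw [← h3, h4, h5, h6, h7]
    push_cast at h2 ⊢
    rw [h1.1, h2]
    congr 2
    ring
  have e4 : P + P.comp (-Polynomial.X - 8) = 3 * tp 0 - 2 * tp 1 + 2 * tp 2 - tp 3 + tp 4 := by
    apply Polynomial.eq_of_infinite_eval_eq
    have h1 : Set.Infinite {k : ℤ | P.eval (k : ℚ) + P.eval (-(k : ℚ) - 8) =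
      3 * tj 0 k - 2 * tj 1 k + 2 * tj 2 k - tj 3 k + tj 4 k} := by
      obtain ⟨K, hK3⟩ := eventually_atTop.1 e3
      exact (Set.Ici_infinite K).mono fun k hk => hK3 k hk
    have h2 := h1.image (f := fun k : ℤ => (k : ℚ)) (Int.cast_injective.injOn)
    refine h2.mono ?_
    rintro _ ⟨k, hk, rfl⟩
    simp only [Set.mem_ofPred_eq] at hk ⊢
    simp only [Polynomial.eval_add, Polynomial.eval_sub, Polynomial.eval_mul, Polynomial.eval_comp,
      Polynomial.eval_neg, Polynomial.eval_X, Polynomial.eval_ofNat, tp_eval]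
    exact hk
  have e5 := congrArg (Polynomial.eval (-4 : ℚ)) e4
  simp only [Polynomial.eval_add, Polynomial.eval_sub, Polynomial.eval_mul, Polynomial.eval_comp,
      Polynomial.eval_neg, Polynomial.eval_X, Polynomial.eval_ofNat, tp_eval, tj0, tj1, tj2, tj3,
      tj4] at e5
  norm_num at e5
  obtain ⟨K, hK2⟩ := eventually_atTop.1 e1
  obtain ⟨m, hm⟩ := poly_int P hP K (fun k hk => ⟨f (W hJ) k, ((hK2 k hk).1).symm⟩) (-4)
  push_cast at hm
  rw [hm] at e5
  have e6 : (m + m : ℤ) = -1 := by exact_mod_cast e5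
  omega

end Pool.Agent.TH615.SD
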