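import Pool.Agent.TH615.SD.Sign

/-!
# SD-K5, part 6: algebraic identities
-/

set_option linter.unusedSimpArgs false
open scoped ContDiff Topology
open Set Matrix

noncomputable section

namespace Pool.Agent.TH615.SD
open Pool.Agent.TH179.SD

variable {z : C5} {J : C5 →ₗ[ℝ] C5} {f g : Fin 4 → C5}

lemma sq_of_four {R : Type*} [Ring R] [Algebra ℂ R] (P e1 e2 e3 e4 : R)
    (s1 : e1 * e1 = 1) (s2 : e2 * e2 = 1) (s3 : e3 * e3 = 1) (s4 : e4 * e4 = 1)
    (c21 : e2 * e1 = e1 * e2) (c31 : e3 * e1 = e1 * e3) (c41 : e4 * e1 = e1 * e4)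
    (c32 : e3 * e2 = e2 * e3) (c42 : e4 * e2 = e2 * e4) (c43 : e4 * e3 = e3 * e4)
    (hP : P * (e1 * (e2 * (e3 * e4))) = -P) :
    P * (((1 / 2 : ℂ) • (e1 + e2 + e3 + e4)) * ((1 / 2 : ℂ) • (e1 + e2 + e3 + e4))) = P := by
  have a1 : ∀ x, e1 * (e1 * x) = x := fun x => by rw [← mul_assoc, s1, one_mul]
  have a2 : ∀ x, e2 * (e2 * x) = x := fun x => by rw [← mul_assoc, s2, one_mul]
  have a3 : ∀ x, e3 * (e3 * x) = x := fun x => by rw [← mul_assoc, s3, one_mul]
  have a4 : ∀ x, e4 * (e4 * x) = x := fun x => by rw [← mul_assoc, s4, one_mul]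
  have d21 : ∀ x, e2 * (e1 * x) = e1 * (e2 * x) := fun x => by
    rw [← mul_assoc, c21, mul_assoc]
  have d31 : ∀ x, e3 * (e1 * x) = e1 * (e3 * x) := fun x => by
    rw [← mul_assoc, c31, mul_assoc]
  have d41 : ∀ x, e4 * (e1 * x) = e1 * (e4 * x) := fun x => by
    rw [← mul_assoc, c41, mul_assoc]
  have d32 : ∀ x, e3 * (e2 * x) = e2 * (e3 * x) := fun x => by
    rw [← mul_assoc, c32, mul_assoc]
  have d42 : ∀ x, e4 * (e2 * x) = e2 * (e4 * x) := fun x => by
    rw [← mul_assoc, c42, mul_assoc]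
  have d43 : ∀ x, e4 * (e3 * x) = e3 * (e4 * x) := fun x => by
    rw [← mul_assoc, c43, mul_assoc]
  have h12 : P * (e1 * e2) = -(P * (e3 * e4)) := by
    have h : (e1 * (e2 * (e3 * e4))) * (e3 * e4) = e1 * e2 := by
      simp only [mul_assoc, s1, s2, s3, s4, c21, c31, c41, c32, c42, c43, a1, a2, a3, a4, d21, d31,
        d41, d32, d42, d43, mul_one]
    rw [← h, ← mul_assoc, hP, neg_mul]
  have h13 : P * (e1 * e3) = -(P * (e2 * e4)) := by
    have h : (e1 * (e2 * (e3 * e4))) * (e2 * e4) = e1 * e3 := by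
      simp only [mul_assoc, s1, s2, s3, s4, c21, c31, c41, c32, c42, c43, a1, a2, a3, a4, d21, d31,
        d41, d32, d42, d43, mul_one]
    rw [← h, ← mul_assoc, hP, neg_mul]
  have h14 : P * (e1 * e4) = -(P * (e2 * e3)) := by
    have h : (e1 * (e2 * (e3 * e4))) * (e2 * e3) = e1 * e4 := by
      simp only [mul_assoc, s1, s2, s3, s4, c21, c31, c41, c32, c42, c43, a1, a2, a3, a4, d21, d31,
        d41, d32, d42, d43, mul_one]
    rw [← h, ← mul_assoc, hP, neg_mul]
  have h2 : (e1 + e2 + e3 + e4) * (e1 + e2 + e3 + e4) = (4 : ℂ) • 1 +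
      (2 : ℂ) • ((e1 * e2 + e3 * e4) + (e1 * e3 + e2 * e4) + (e1 * e4 + e2 * e3)) := by
    have h4 : (4 : ℂ) • (1 : R) = 1 + 1 + 1 + 1 := by
      rw [show (4 : ℂ) = 1 + 1 + 1 + 1 by norm_num, add_smul, add_smul, add_smul, one_smul]
    rw [two_smul, h4]
    simp only [mul_add, add_mul, s1, s2, s3, s4, c21, c31, c41, c32, c42, c43]
    abel
  rw [smul_mul_smul_comm, h2, mul_smul_comm, mul_add, mul_smul_comm, mul_smul_comm, mul_add,
    mul_add, mul_add, mul_add, mul_add, h12, h13, h14, mul_one]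
  simp only [neg_add_cancel, add_zero, smul_zero, smul_smul]
  norm_num

lemma anti_swap {R : Type*} [Ring R] {a b c d : R} (h1 : a * c = -(c * a)) (h2 : a * d = -(d * a))
    (h3 : b * c = -(c * b)) (h4 : b * d = -(d * b)) : (a * b) * (c * d) = (c * d) * (a * b) := by
  calc (a * b) * (c * d) = a * (b * c) * d := by noncomm_ring
    _ = -((a * c) * (b * d)) := by rw [h3]; noncomm_ring
    _ = -((c * a) * (d * b)) := by rw [h1, h4]; noncomm_ring
    _ = -(c * (a * d) * b) := by noncomm_ring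
    _ = (c * d) * (a * b) := by rw [h2]; noncomm_ring

lemma comm_of_anti {R : Type*} [Ring R] {x y X : R} (h1 : x * X = -(X * x))
    (h2 : y * X = -(X * y)) : (x * y) * X = X * (x * y) := by
  rw [mul_assoc, h2, mul_neg, ← mul_assoc, h1, neg_mul, neg_neg, mul_assoc]

/-- `c(z) c(z)^*` -/
def nn (z : C5) : MM := cc z * (cc z)ᴴ

lemma ccH_cc (hz : hp z z = 1) : (cc z)ᴴ * cc z = 1 - nn z := by
  have h := cc_car z z
  rw [hz, one_smul] at h
  rw [nn, ← h]; abel

lemma ccH_sq (z : C5) : (cc z)ᴴ * (cc z)ᴴ = 0 := by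
  have h := congrArg conjTranspose (cc_sq z)
  simpa [conjTranspose_mul] using h

lemma nn_sq (hz : hp z z = 1) : nn z * nn z = nn z := by
  have h1 := ccH_cc hz
  have h2 := cc_sq z
  calc nn z * nn z = cc z * ((cc z)ᴴ * cc z) * (cc z)ᴴ := by unfold nn; noncomm_ring
    _ = cc z * (1 - cc z * (cc z)ᴴ) * (cc z)ᴴ := by rw [h1]; rfl
    _ = cc z * (cc z)ᴴ - (cc z * cc z) * ((cc z)ᴴ * (cc z)ᴴ) := by noncomm_ring
    _ = nn z := by rw [h2, zero_mul, sub_zero]; rfl

lemma nn_herm (z : C5) : (nn z)ᴴ = nn z := by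
  simp [nn, conjTranspose_mul]

lemma Par_nn (z : C5) : Par * nn z = nn z * Par := by
  rw [nn, ← mul_assoc, Par_cc, neg_mul, mul_assoc, Par_ccH, mul_neg, neg_neg, ← mul_assoc]

lemma Od_nn (z : C5) : Od * nn z = nn z * Od := by
  rw [Od, smul_mul_assoc, mul_smul_comm, sub_mul, mul_sub, Par_nn, one_mul, mul_one]

lemma Od_Par : Od * Par = -Od := by
  rw [Od, smul_mul_assoc, sub_mul, one_mul, Par_sq, ← smul_neg, neg_sub]

lemma Od_sq : Od * Od = Od := by
  have h2 : Par * Od = -Od := by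
    rw [Od, mul_smul_comm, mul_sub, mul_one, Par_sq, ← smul_neg, neg_sub]
  have h3 : Od * Od = (1 / 2 : ℂ) • ((1 - Par) * Od) := by
    conv_lhs => enter [1]; rw [Od]
    rw [smul_mul_assoc]
  rw [h3, sub_mul, one_mul, h2, sub_neg_eq_add, ← two_smul ℂ, smul_smul]
  norm_num

lemma Od_herm : Odᴴ = Od := by
  rw [Od, conjTranspose_smul, conjTranspose_sub, conjTranspose_one, Par_herm]
  congr 1
  simp

/-- the projection `P` -/
def PP (z : C5) : MM := Od * nn z

lemma PP_sq (hz : hp z z = 1) : PP z * PP z = PP z := by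
  calc PP z * PP z = Od * (nn z * Od) * nn z := by unfold PP; noncomm_ring
    _ = (Od * Od) * (nn z * nn z) := by rw [← Od_nn]; noncomm_ring
    _ = PP z := by rw [Od_sq, nn_sq hz]; rfl

lemma PP_herm (z : C5) : (PP z)ᴴ = PP z := by
  rw [PP, conjTranspose_mul, Od_herm, nn_herm, Od_nn]

/-- the product of the eight -/
def pi8 (f g : Fin 4 → C5) : MM :=
  (gm (f 0) * gm (g 0)) * ((gm (f 1) * gm (g 1)) * ((gm (f 2) * gm (g 2)) * (gm (f 3) * gm (g 3))))

lemma Fr.pi8_eq (h : PJ z J) (hf : Fr z J f g) : (1 - (2 : ℂ) • nn z) * pi8 f g = -Par := by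
  have h1 := NN_det (F5 z f g) hf.isom
  rw [det_eq h hf, NN_id] at h1
  have h2 : NN (F5 z f g) = (gm z * gm (Complex.I • z)) * pi8 f g := by
    simp only [NN, F5_rr]
    simp only [List.ofFn_succ, List.prod_cons, List.ofFn_zero, List.prod_nil, mul_one, pi8,
      mul_assoc]
    rfl
  rw [h2, gm_gmI z h.unit, smul_mul_assoc, neg_smul, one_smul, ← smul_neg] at h1
  exact smul_right_injective MM Complex.I_ne_zero h1

lemma Fr.PP_pi8 (h : PJ z J) (hf : Fr z J f g) : PP z * pi8 f g = -PP z := by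
  have h1 := hf.pi8_eq h
  have h2 : nn z * (1 - (2 : ℂ) • nn z) = -nn z := by
    rw [mul_sub, mul_one, mul_smul_comm, nn_sq h.unit, two_smul]; abel
  have h3 : nn z * pi8 f g = nn z * Par := by
    have h4 := congrArg (fun x => nn z * x) h1
    simp only [← mul_assoc, h2, mul_neg, neg_mul] at h4
    exact neg_injective h4
  rw [PP, mul_assoc, h3, ← Par_nn, ← mul_assoc, Od_Par, neg_mul]

lemma Fr.gf (hf : Fr z J f g) (i j : Fin 4) : ip (g i) (f j) = 0 := by rw [ip_comm, hf.fg]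

lemma Fr.swap (hf : Fr z J f g) {i j : Fin 4} (hij : i ≠ j) :
    (gm (f i) * gm (g i)) * (gm (f j) * gm (g j)) =
      (gm (f j) * gm (g j)) * (gm (f i) * gm (g i)) := by
  apply anti_swap
  · apply gm_anti; rw [hf.ff, if_neg hij]
  · apply gm_anti; rw [hf.fg]
  · apply gm_anti; rw [hf.gf]
  · apply gm_anti; rw [hf.gg, if_neg hij]

lemma Fr.sq (hf : Fr z J f g) (i : Fin 4) :
    (gm (f i) * gm (g i)) * (gm (f i) * gm (g i)) = -1 := by
  have h1 : gm (g i) * gm (f i) = -(gm (f i) * gm (g i)) := gm_anti (hf.gf i i)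
  have h2 : gm (f i) * gm (f i) = 1 := gm_sq (by rw [hf.ff, if_pos rfl])
  have h3 : gm (g i) * gm (g i) = 1 := gm_sq (by rw [hf.gg, if_pos rfl])
  calc (gm (f i) * gm (g i)) * (gm (f i) * gm (g i)) =
      gm (f i) * (gm (g i) * gm (f i)) * gm (g i) := by noncomm_ring
    _ = -((gm (f i) * gm (f i)) * (gm (g i) * gm (g i))) := by rw [h1]; noncomm_ring
    _ = -1 := by rw [h2, h3, mul_one]

theorem PJ.PP_DD (h : PJ z J) : PP z * (DD J * DD J) = PP z := by
  obtain ⟨f, g, hf⟩ := h.exists_Fr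
  have e : ∀ i, (Complex.I • (gm (f i) * gm (g i))) * (Complex.I • (gm (f i) * gm (g i))) = 1 := by
    intro i
    rw [smul_mul_smul_comm, hf.sq, Complex.I_mul_I]
    simp
  have c : ∀ i j, i ≠ j → (Complex.I • (gm (f i) * gm (g i))) * (Complex.I • (gm (f j) * gm (g j))) =
      (Complex.I • (gm (f j) * gm (g j))) * (Complex.I • (gm (f i) * gm (g i))) := by
    intro i j hij
    rw [smul_mul_smul_comm, smul_mul_smul_comm, hf.swap hij]
  have hD : DD J = (1 / 2 : ℂ) • (Complex.I • (gm (f 0) * gm (g 0)) +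
      Complex.I • (gm (f 1) * gm (g 1)) + Complex.I • (gm (f 2) * gm (g 2)) +
      Complex.I • (gm (f 3) * gm (g 3))) := by
    rw [hf.DD_eq h.zero, Fin.sum_univ_four, ← smul_add, ← smul_add, ← smul_add, smul_smul]
    congr 1
    ring
  rw [hD]
  apply sq_of_four
  · exact e 0
  · exact e 1
  · exact e 2
  · exact e 3
  · exact c _ _ (by decide)
  · exact c _ _ (by decide)
  · exact c _ _ (by decide)
  · exact c _ _ (by decide)
  · exact c _ _ (by decide)
  · exact c _ _ (by decide)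
  · have h1 : (Complex.I • (gm (f 0) * gm (g 0))) * ((Complex.I • (gm (f 1) * gm (g 1))) *
        ((Complex.I • (gm (f 2) * gm (g 2))) * (Complex.I • (gm (f 3) * gm (g 3))))) = pi8 f g := by
      rw [smul_mul_smul_comm, smul_mul_smul_comm, smul_mul_smul_comm, pi8]
      have : Complex.I * (Complex.I * (Complex.I * Complex.I)) = 1 := by
        have := Complex.I_mul_I
        linear_combination (Complex.I ^ 2 - 1) * this
      rw [this, one_smul]
    rw [h1, hf.PP_pi8 h]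

lemma PJ.DD_comm_of (h : PJ z J) (X : MM) (hX : ∀ u, hp z u = 0 → gm u * X = -(X * gm u)) :
    DD J * X = X * DD J := by
  obtain ⟨f, g, hf⟩ := h.exists_Fr
  rw [hf.DD_eq h.zero, smul_mul_assoc, mul_smul_comm, Finset.sum_mul, Finset.mul_sum]
  congr 1
  exact Finset.sum_congr rfl fun k _ => comm_of_anti (hX _ (hf.zf k)) (hX _ (hf.zg k))

lemma PJ.DD_Par (h : PJ z J) : DD J * Par = Par * DD J := by
  apply h.DD_comm_of
  intro u _
  rw [Par_gm, neg_neg]

lemma PJ.DD_cc (h : PJ z J) : DD J * cc z = cc z * DD J := by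
  apply h.DD_comm_of
  intro u hu
  have h1 := gm_cc u z
  rw [hp_zero_comm hu, zero_smul] at h1
  exact eq_neg_of_add_eq_zero_left h1

lemma PJ.DD_ccH (h : PJ z J) : DD J * (cc z)ᴴ = (cc z)ᴴ * DD J := by
  apply h.DD_comm_of
  intro u hu
  have h1 := gm_ccH u z
  rw [hu, zero_smul] at h1
  exact eq_neg_of_add_eq_zero_left h1

lemma PJ.DD_nn (h : PJ z J) : DD J * nn z = nn z * DD J := by
  rw [nn, ← mul_assoc, h.DD_cc, mul_assoc, h.DD_ccH, ← mul_assoc]

lemma PJ.DD_Od (h : PJ z J) : DD J * Od = Od * DD J := by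
  rw [Od, smul_mul_assoc, mul_smul_comm, sub_mul, mul_sub, h.DD_Par, one_mul, mul_one]

lemma PJ.DD_PP (h : PJ z J) : DD J * PP z = PP z * DD J := by
  rw [PP, ← mul_assoc, h.DD_Od, mul_assoc, h.DD_nn, ← mul_assoc]

lemma PJ.DD_herm (h : PJ z J) : (DD J)ᴴ = DD J := by
  obtain ⟨f, g, hf⟩ := h.exists_Fr
  rw [hf.DD_eq h.zero, conjTranspose_smul, conjTranspose_sum]
  have h1 : ∀ k, (gm (f k) * gm (g k))ᴴ = -(gm (f k) * gm (g k)) := by
    intro k
    rw [conjTranspose_mul, gm_herm, gm_herm, gm_anti (hf.gf k k)]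
  rw [Finset.sum_congr rfl fun k _ => h1 k, Finset.sum_neg_distrib, smul_neg, ← neg_smul]
  congr 1
  simp only [Complex.star_def, map_div₀, Complex.conj_I, map_ofNat]
  ring

/-- the projection to the eigenspace of `D` for the eigenvalue `s = ±1` -/
def EE (s : ℂ) (z : C5) (J : C5 →ₗ[ℝ] C5) : MM := (1 / 2 : ℂ) • (PP z + s • (PP z * DD J))

lemma PJ.EE_mul (h : PJ z J) (s t : ℂ) : EE s z J * EE t z J =
    (1 / 4 : ℂ) • ((1 + s * t) • PP z + (s + t) • (PP z * DD J)) := by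
  have h1 := PP_sq h.unit
  have h2 : PP z * DD J * PP z = PP z * DD J := by
    rw [mul_assoc, h.DD_PP, ← mul_assoc, h1]
  have h3 : PP z * DD J * (PP z * DD J) = PP z := by
    rw [← mul_assoc, h2, mul_assoc, h.PP_DD]
  have h4 : PP z * (PP z * DD J) = PP z * DD J := by rw [← mul_assoc, h1]
  rw [EE, EE, smul_mul_smul_comm, add_mul, mul_add, mul_add, h1, mul_smul_comm, smul_mul_assoc,
    smul_mul_smul_comm, h2, h3, h4]
  rw [show (1 / 2 : ℂ) * (1 / 2) = 1 / 4 by norm_num, add_smul, add_smul, one_smul]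
  congr 1
  abel

lemma PJ.EE_sq (h : PJ z J) {s : ℂ} (hs : s * s = 1) : EE s z J * EE s z J = EE s z J := by
  rw [h.EE_mul, hs, EE]
  rw [show (1 + 1 : ℂ) = 2 by norm_num, show s + s = 2 * s by ring, mul_smul, ← smul_add,
    smul_smul]
  norm_num

lemma PJ.EE_orth (h : PJ z J) {s : ℂ} (hs : s * s = 1) : EE s z J * EE (-s) z J = 0 := by
  rw [h.EE_mul]
  rw [show (1 + s * -s : ℂ) = 0 by linear_combination -hs, show s + -s = 0 by ring]
  simp

lemma EE_add (s : ℂ) : EE s z J + EE (-s) z J = PP z := by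
  rw [EE, EE, ← smul_add, neg_smul]
  have : PP z + s • (PP z * DD J) + (PP z + -(s • (PP z * DD J))) = (2 : ℂ) • PP z := by
    rw [two_smul]; abel
  rw [this, smul_smul]
  norm_num

lemma PJ.EE_herm (h : PJ z J) {s : ℂ} (hs : star s = s) : (EE s z J)ᴴ = EE s z J := by
  rw [EE, conjTranspose_smul, conjTranspose_add, conjTranspose_smul, conjTranspose_mul, PP_herm,
    h.DD_herm, h.DD_PP, hs]
  congr 1
  simp

lemma PJ.EE_nn (h : PJ z J) (s : ℂ) : EE s z J * nn z = EE s z J := by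
  have h1 : PP z * nn z = PP z := by rw [PP, mul_assoc, nn_sq h.unit]
  rw [EE, smul_mul_assoc, add_mul, smul_mul_assoc, h1, mul_assoc, h.DD_nn, ← mul_assoc, h1]

end Pool.Agent.TH615.SD
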