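import Pool.Agent.TH615.SD.Conj

/-!
# SD-K5, part 8: the bundles
-/

set_option linter.unusedSimpArgs false
open scoped ContDiff Topology
open Set Matrix Filter

noncomputable section

namespace Pool.Agent.TH615.SD
open Pool.Agent.TH179.SD

/-- a bundle with fibres in the exterior algebra -/
structure Pr (E : Z → MM) : Prop where
  cont : Continuous E
  idem : ∀ x, E x * E x = E x
  herm : ∀ x, (E x)ᴴ = E x
  equiv : ∀ (t : Circle) x, E (rot t x) = cU t (E x)

/-- the bundle -/
def mkB (E : Z → MM) (h : Pr E) : Bun where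
  ι := I5
  fin := inferInstance
  dec := inferInstance
  a := wt
  e := E
  cont := h.cont
  idem := h.idem
  herm := h.herm
  equiv t x i j := by rw [h.equiv]; rfl

/-- isomorphism criterion -/
lemma mkB_iso {E F : Z → MM} (hE : Pr E) (hF : Pr F) (u v : Z → MM) (hu : Continuous u)
    (hv : Continuous v) (h1 : ∀ x, v x * u x = E x) (h2 : ∀ x, u x * v x = F x)
    (h3 : ∀ (t : Circle) x, u (rot t x) = cU t (u x))
    (h4 : ∀ (t : Circle) x, v (rot t x) = cU t (v x)) : (mkB E hE).Iso (mkB F hF) := by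
  refine ⟨u, v, hu, hv, h1, h2, ?_, ?_⟩
  · intro t x i j; rw [h3]; rfl
  · intro t x i j; rw [h4]; rfl

/-- splitting criterion -/
lemma mkB_split {E F G : Z → MM} (hE : Pr E) (hF : Pr F) (hG : Pr G)
    (h1 : ∀ x, E x = F x + G x) (h2 : ∀ x, F x * G x = 0) :
    (mkB E hE).Iso ((mkB F hF).sum (mkB G hG)) := by
  have h3 : ∀ x, G x * F x = 0 := by
    intro x
    have h := congrArg conjTranspose (h2 x)
    rw [conjTranspose_mul, hF.herm, hG.herm, conjTranspose_zero] at h
    exact h
  refine ⟨fun x => Matrix.fromRows (F x) (G x), fun x => Matrix.fromCols (F x) (G x), ?_, ?_, ?_,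
    ?_, ?_, ?_⟩
  · refine continuous_matrix fun i j => ?_
    rcases i with i | i
    · exact hF.cont.matrix_elem i j
    · exact hG.cont.matrix_elem i j
  · refine continuous_matrix fun i j => ?_
    rcases j with j | j
    · exact hF.cont.matrix_elem i j
    · exact hG.cont.matrix_elem i j
  · intro x
    change Matrix.fromCols (F x) (G x) * Matrix.fromRows (F x) (G x) = E x
    rw [Matrix.fromCols_mul_fromRows, hF.idem, hG.idem, h1]
  · intro x
    change Matrix.fromRows (F x) (G x) * Matrix.fromCols (F x) (G x) =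
      Matrix.fromBlocks (F x) 0 0 (G x)
    rw [Matrix.fromRows_mul_fromCols, hF.idem, hG.idem, h2, h3]
  · intro t x i j
    rcases i with i | i
    · change F (rot t x) i j = _
      rw [hF.equiv]; rfl
    · change G (rot t x) i j = _
      rw [hG.equiv]; rfl
  · intro t x i j
    rcases j with j | j
    · change F (rot t x) i j = _
      rw [hF.equiv]; rfl
    · change G (rot t x) i j = _
      rw [hG.equiv]; rfl

/-- change of coordinates on the sphere -/
def tw (x : Z) : C5 := fun i => if i = 0 then (starRingEnd ℂ) (x.1 i) else x.1 i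

lemma tw_mem (x : Z) : tw x ∈ sph := by
  have h := x.2
  change ∑ i, ‖tw x i‖ ^ 2 = 1
  rw [← h]
  refine Finset.sum_congr rfl fun i _ => ?_
  unfold tw
  split_ifs
  · simp
  · rfl

lemma tw_rot (t : Circle) (x : Z) : tw (rot t x) = rho t (tw x) := by
  funext i
  unfold tw rot rho
  simp only
  split_ifs
  · rw [map_mul]
  · rfl

lemma tw_cont : Continuous tw := by
  refine continuous_pi fun i => ?_
  unfold tw
  split_ifs
  · exact Complex.continuous_conj.comp ((continuous_apply i).comp continuous_subtype_val)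
  · exact (continuous_apply i).comp continuous_subtype_val

lemma hp_tw (x : Z) : hp (tw x) (tw x) = 1 := by
  have h : ∑ i, ‖tw x i‖ ^ 2 = 1 := tw_mem x
  unfold hp
  have h2 : ∀ i, (starRingEnd ℂ) (tw x i) * tw x i = ((‖tw x i‖ ^ 2 : ℝ) : ℂ) := by
    intro i
    rw [mul_comm, Complex.mul_conj, Complex.normSq_eq_norm_sq]
  rw [Finset.sum_congr rfl fun i _ => h2 i, ← Complex.ofReal_sum, h, Complex.ofReal_one]

lemma cc_cont : Continuous fun x : Z => cc (tw x) :=
  (LinearMap.continuous_of_finiteDimensional cc).comp tw_cont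

lemma ccH_cont : Continuous fun x : Z => (cc (tw x))ᴴ := cc_cont.matrix_conjTranspose

lemma nn_cont : Continuous fun x : Z => nn (tw x) := cc_cont.mul ccH_cont

lemma cU_nn (t : Circle) (v : C5) : cU t (nn v) = nn (rho t v) := by
  rw [nn, cU_mul, cU_H, cU_cc]; rfl

lemma cU_Q (t : Circle) (j : ℕ) : cU t (Q j) = Q j := cU_diag t _

lemma cU_one (t : Circle) : cU t 1 = 1 := by
  rw [← diagonal_one, cU_diag]

lemma cU_Od (t : Circle) : cU t Od = Od := by
  rw [Od, cU_smul, cU_sub, cU_one, Par, cU_diag]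

lemma Q_nn (j : ℕ) (z : C5) : Q j * nn z = nn z * Q j := by
  rcases j with _ | j
  · rw [nn, ← mul_assoc, Q0_cc, mul_assoc, Q0_ccH, zero_mul, mul_zero]
  · rw [nn, ← mul_assoc, Q_cc, mul_assoc, mul_assoc, Q_ccH]

lemma Q_sq (j : ℕ) : Q j * Q j = Q j := by rw [Q_mul, if_pos rfl]

/-- the kernel of `c(z)` in degree `j` -/
def EA (j : ℕ) (x : Z) : MM := Q j * nn (tw x)

/-- the kernel of `c(z)^*` in degree `j` -/
def EB (j : ℕ) (x : Z) : MM := Q j * (1 - nn (tw x))

lemma prA (j : ℕ) : Pr (EA j) where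
  cont := continuous_const.mul nn_cont
  idem x := by
    unfold EA
    calc Q j * nn (tw x) * (Q j * nn (tw x)) = Q j * (nn (tw x) * Q j) * nn (tw x) := by
          noncomm_ring
      _ = (Q j * Q j) * (nn (tw x) * nn (tw x)) := by rw [← Q_nn]; noncomm_ring
      _ = _ := by rw [Q_sq, nn_sq (hp_tw x)]
  herm x := by
    unfold EA
    rw [conjTranspose_mul, Q_herm, nn_herm, Q_nn]
  equiv t x := by
    unfold EA
    rw [cU_mul, cU_Q, cU_nn, tw_rot]

lemma prB (j : ℕ) : Pr (EB j) where
  cont := continuous_const.mul (continuous_const.sub nn_cont)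
  idem x := by
    unfold EB
    have h1 : (1 - nn (tw x)) * Q j = Q j * (1 - nn (tw x)) := by
      rw [sub_mul, mul_sub, one_mul, mul_one, Q_nn]
    have h2 : (1 - nn (tw x)) * (1 - nn (tw x)) = 1 - nn (tw x) := by
      have := nn_sq (hp_tw x)
      calc (1 - nn (tw x)) * (1 - nn (tw x)) = 1 - nn (tw x) - nn (tw x) + nn (tw x) * nn (tw x) := by
            noncomm_ring
        _ = _ := by rw [this]; abel
    calc Q j * (1 - nn (tw x)) * (Q j * (1 - nn (tw x))) =
        Q j * ((1 - nn (tw x)) * Q j) * (1 - nn (tw x)) := by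
          noncomm_ring
      _ = (Q j * Q j) * ((1 - nn (tw x)) * (1 - nn (tw x))) := by rw [h1]; noncomm_ring
      _ = _ := by rw [Q_sq, h2]
  herm x := by
    unfold EB
    rw [conjTranspose_mul, Q_herm, conjTranspose_sub, conjTranspose_one, nn_herm, mul_sub, sub_mul,
      mul_one, one_mul, Q_nn]
  equiv t x := by
    unfold EB
    rw [cU_mul, cU_Q, cU_sub, cU_one, cU_nn, tw_rot]

lemma prQ (j : ℕ) : Pr (fun _ => Q j) where
  cont := continuous_const
  idem _ := Q_sq j
  herm _ := Q_herm j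
  equiv t _ := (cU_Q t j).symm

/-- the kernel of `c(z)` in degree `j` as a bundle -/
def A (j : ℕ) : Bun := mkB _ (prA j)
/-- the complement -/
def B (j : ℕ) : Bun := mkB _ (prB j)
/-- forms of degree `j` -/
def Lam (j : ℕ) : Bun := mkB _ (prQ j)

lemma Lam_iso (j : ℕ) : (Lam j).Iso ((A j).sum (B j)) := by
  apply mkB_split
  · intro x
    unfold EA EB
    rw [← mul_add, add_sub_cancel, mul_one]
  · intro x
    unfold EA EB
    have h1 : nn (tw x) * (Q j * (1 - nn (tw x))) = 0 := by
      rw [← mul_assoc, ← Q_nn, mul_assoc, mul_sub, mul_one, nn_sq (hp_tw x), sub_self, mul_zero]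
    rw [mul_assoc, h1, mul_zero]

lemma B_iso (j : ℕ) : (B j).Iso (A (j + 1)) := by
  have hn : ∀ x, (1 - nn (tw x)) * (1 - nn (tw x)) = 1 - nn (tw x) := by
    intro x
    have := nn_sq (hp_tw x)
    calc (1 - nn (tw x)) * (1 - nn (tw x)) = 1 - nn (tw x) - nn (tw x) + nn (tw x) * nn (tw x) := by
          noncomm_ring
      _ = _ := by rw [this]; abel
  apply mkB_iso (prB j) (prA (j + 1)) (fun x => cc (tw x) * EB j x) (fun x => EB j x * (cc (tw x))ᴴ)
  · exact cc_cont.mul (prB j).cont
  · exact (prB j).cont.mul ccH_cont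
  · intro x
    have h1 := ccH_cc (hp_tw x)
    have h2 := (prB j).idem x
    have h3 : EB j x * (1 - nn (tw x)) = EB j x := by
      unfold EB
      rw [mul_assoc, hn]
    calc EB j x * (cc (tw x))ᴴ * (cc (tw x) * EB j x) =
        EB j x * ((cc (tw x))ᴴ * cc (tw x)) * EB j x := by noncomm_ring
      _ = EB j x := by rw [h1, h3, h2]
  · intro x
    have h2 := (prB j).idem x
    have h4 : cc (tw x) * Q j = Q (j + 1) * cc (tw x) := (Q_cc j (tw x)).symm
    have h5 : cc (tw x) * (1 - nn (tw x)) = cc (tw x) := by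
      rw [nn, mul_sub, mul_one, ← mul_assoc, cc_sq, zero_mul, sub_zero]
    calc cc (tw x) * EB j x * (EB j x * (cc (tw x))ᴴ) =
        cc (tw x) * (EB j x * EB j x) * (cc (tw x))ᴴ := by noncomm_ring
      _ = (cc (tw x) * Q j) * (1 - nn (tw x)) * (cc (tw x))ᴴ := by
          rw [h2, EB]; noncomm_ring
      _ = Q (j + 1) * (cc (tw x) * (1 - nn (tw x))) * (cc (tw x))ᴴ := by rw [h4]; noncomm_ring
      _ = EA (j + 1) x := by rw [h5, EA, nn, mul_assoc]
  · intro t x
    rw [cU_mul, cU_cc, (prB j).equiv, tw_rot]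
  · intro t x
    rw [cU_mul, cU_H, cU_cc, (prB j).equiv, tw_rot]

/-- the index set of the monomials of degree `j` -/
abbrev Ij (j : ℕ) : Type := {A : I5 // A.card = j}

/-- inclusion of the forms of degree `j` -/
def inc (j : ℕ) : Matrix (Ij j) I5 ℂ := Matrix.of fun A B => if A.1 = B then (1 : ℂ) else 0

/-- inclusion of the forms of degree `j` -/
def inc' (j : ℕ) : Matrix I5 (Ij j) ℂ := Matrix.of fun A B => if A = B.1 then (1 : ℂ) else 0

lemma inc'_inc (j : ℕ) : inc' j * inc j = Q j := by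
  ext A B
  rw [mul_apply]
  simp only [of_apply, Q, diagonal_apply, inc, inc']
  by_cases hA : A.card = j
  · rw [Finset.sum_eq_single (⟨A, hA⟩ : Ij j)]
    · simp [hA]
    · intro C _ hC
      rw [if_neg, zero_mul]
      intro h
      apply hC
      exact Subtype.ext h.symm
    · simp
  · rw [Finset.sum_eq_zero]
    · simp [hA]
    · intro C _
      rw [if_neg, zero_mul]
      intro h
      exact hA (h ▸ C.2)

lemma inc_inc' (j : ℕ) : inc j * inc' j = 1 := by
  ext A B
  rw [mul_apply, Finset.sum_eq_single A.1]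
  · simp only [of_apply, inc, inc', if_true, one_mul, one_apply, Subtype.ext_iff]
  · intro C _ hC
    simp only [of_apply, inc, inc']
    rw [if_neg hC.symm, zero_mul]
  · simp

lemma Lam_triv (j : ℕ) : (Lam j).Iso (Bun.triv (Ij j) fun A => wt A.1) := by
  refine ⟨fun _ => inc j, fun _ => inc' j,
    continuous_const, continuous_const, fun _ => inc'_inc j, fun _ => inc_inc' j, ?_, ?_⟩
  · intro t x A B
    change (if A.1 = B then (1 : ℂ) else 0) = (t : ℂ) ^ (wt A.1 - wt B) *
      (if A.1 = B then (1 : ℂ) else 0)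
    by_cases h : A.1 = B
    · rw [h]; simp
    · rw [if_neg h]; simp
  · intro t x A B
    change (if A = B.1 then (1 : ℂ) else 0) = (t : ℂ) ^ (wt A - wt B.1) *
      (if A = B.1 then (1 : ℂ) else 0)
    by_cases h : A = B.1
    · rw [h]; simp
    · rw [if_neg h]; simp

lemma EA0 (x : Z) : EA 0 x = 0 := by
  unfold EA
  rw [nn, ← mul_assoc, Q0_cc, zero_mul]

lemma A0_triv : (A 0).Iso (Bun.triv (Fin 0) fun _ => 0) := by
  have h1 : ∀ x, (0 : Matrix I5 (Fin 0) ℂ) * (0 : Matrix (Fin 0) I5 ℂ) = EA 0 x := by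
    intro x
    rw [EA0, Matrix.zero_mul]
  have h2 : (0 : Matrix (Fin 0) I5 ℂ) * (0 : Matrix I5 (Fin 0) ℂ) = 1 := Subsingleton.elim _ _
  refine ⟨fun _ => (0 : Matrix (Fin 0) I5 ℂ), fun _ => (0 : Matrix I5 (Fin 0) ℂ),
    continuous_const, continuous_const, h1, fun _ => h2, ?_, ?_⟩
  · intro t x i; exact i.elim0
  · intro t x i j; exact j.elim0

end Pool.Agent.TH615.SD
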