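import Pool.Agent.TH179.SD.Kth

/-!
# SD-K5, part 1: the Clifford algebra on the exterior algebra of `ℂ⁵`
-/

open scoped ContDiff Topology
open Set Matrix

noncomputable section

namespace Pool.Agent.TH615.SD
open Pool.Agent.TH179.SD

/-- index set of the standard basis of the exterior algebra -/
abbrev I5 : Type := Finset (Fin 5)

/-- matrices -/
abbrev MM : Type := Matrix I5 I5 ℂ

/-- sign -/
def sg (i : Fin 5) (A : I5) : ℂ := (-1) ^ (A.filter (· < i)).card

lemma sg_mul_self (i : Fin 5) (A : I5) : sg i A * sg i A = 1 := by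
  unfold sg
  rw [← mul_pow]; simp

lemma sg_erase {i : Fin 5} {A : I5} (h : i ∈ A) (j : Fin 5) :
    sg j (A.erase i) = (if i < j then -1 else 1) * sg j A := by
  unfold sg
  split_ifs with hij
  · have h1 : (A.erase i).filter (· < j) = (A.filter (· < j)).erase i := by
      ext k; simp only [Finset.mem_filter, Finset.mem_erase]; tauto
    have h2 : i ∈ A.filter (· < j) := by simp [h, hij]
    have h3 := Finset.card_erase_add_one h2
    rw [h1, ← h3, pow_succ]
    ring
  · have h1 : (A.erase i).filter (· < j) = A.filter (· < j) := by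
      ext k; simp only [Finset.mem_filter, Finset.mem_erase]
      constructor
      · rintro ⟨⟨_, h2⟩, h3⟩; exact ⟨h2, h3⟩
      · rintro ⟨h2, h3⟩
        refine ⟨⟨?_, h2⟩, h3⟩
        rintro rfl; exact hij h3
    rw [h1, one_mul]

lemma sg_insert {i : Fin 5} {A : I5} (h : i ∉ A) (j : Fin 5) :
    sg j (insert i A) = (if i < j then -1 else 1) * sg j A := by
  have h1 := sg_erase (Finset.mem_insert_self i A) j
  rw [Finset.erase_insert h] at h1
  rw [h1, ← mul_assoc]
  split_ifs <;> simp

/-- creation operators -/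
def cr (i : Fin 5) : MM := Matrix.of fun A B => if i ∈ A ∧ B = A.erase i then sg i A else 0

lemma cr_mulVec (i : Fin 5) (s : I5 → ℂ) (A : I5) :
    (cr i *ᵥ s) A = if i ∈ A then sg i A * s (A.erase i) else 0 := by
  simp only [mulVec, dotProduct, cr, of_apply]
  by_cases h : i ∈ A
  · simp [h]
  · simp [h]

lemma crT_mulVec (i : Fin 5) (s : I5 → ℂ) (A : I5) :
    ((cr i)ᵀ *ᵥ s) A = if i ∈ A then 0 else sg i A * s (insert i A) := by
  simp only [mulVec, dotProduct, cr, transpose_apply, of_apply]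
  by_cases h : i ∈ A
  · rw [if_pos h]
    apply Finset.sum_eq_zero
    intro B _
    rw [if_neg, zero_mul]
    rintro ⟨_, h2⟩
    rw [h2] at h
    simp at h
  · rw [if_neg h, Finset.sum_eq_single (insert i A)]
    · rw [if_pos ⟨Finset.mem_insert_self i A, by rw [Finset.erase_insert h]⟩, sg_insert h]
      simp
    · intro B _ hB
      rw [if_neg, zero_mul]
      rintro ⟨h1, h2⟩
      apply hB
      rw [h2, Finset.insert_erase h1]
    · simp

lemma cr_anti (i j : Fin 5) : cr i * cr j + cr j * cr i = 0 := by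
  apply Matrix.toLin'.injective
  apply LinearMap.ext
  intro s
  funext A
  simp only [toLin'_apply, add_mulVec, ← mulVec_mulVec, Pi.add_apply, cr_mulVec, zero_mulVec,
    Pi.zero_apply]
  by_cases hi : i ∈ A
  · by_cases hj : j ∈ A
    · rcases lt_trichotomy i j with hij | hij | hij
      · have h1 : j ∈ A.erase i := Finset.mem_erase.2 ⟨hij.ne', hj⟩
        have h2 : i ∈ A.erase j := Finset.mem_erase.2 ⟨hij.ne, hi⟩
        rw [if_pos hi, if_pos hj, if_pos h1, if_pos h2, sg_erase hi, sg_erase hj, if_pos hij,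
          if_neg hij.asymm, Finset.erase_right_comm]
        ring
      · subst hij
        simp
      · have h1 : j ∈ A.erase i := Finset.mem_erase.2 ⟨hij.ne, hj⟩
        have h2 : i ∈ A.erase j := Finset.mem_erase.2 ⟨hij.ne', hi⟩
        rw [if_pos hi, if_pos hj, if_pos h1, if_pos h2, sg_erase hi, sg_erase hj, if_pos hij,
          if_neg hij.asymm, Finset.erase_right_comm]
        ring
    · have h1 : j ∉ A.erase i := fun h => hj (Finset.mem_of_mem_erase h)
      simp [hj, h1]
  · have h1 : i ∉ A.erase j := fun h => hi (Finset.mem_of_mem_erase h)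
    simp [hi, h1]

lemma cr_car (i j : Fin 5) : cr i * (cr j)ᵀ + (cr j)ᵀ * cr i = if i = j then 1 else 0 := by
  apply Matrix.toLin'.injective
  apply LinearMap.ext
  intro s
  funext A
  simp only [toLin'_apply, add_mulVec, ← mulVec_mulVec, Pi.add_apply, cr_mulVec, crT_mulVec]
  by_cases hij : i = j
  · subst hij
    by_cases hi : i ∈ A
    · have h1 : i ∉ A.erase i := by simp
      rw [if_pos hi, if_neg h1, if_pos hi, Finset.insert_erase hi, sg_erase hi]
      simp only [lt_irrefl, if_false, one_mul, add_zero, if_true, one_mulVec]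
      rw [← mul_assoc, sg_mul_self, one_mul]
    · have h1 : i ∈ insert i A := by simp
      rw [if_neg hi, if_neg hi, if_pos h1, Finset.erase_insert hi, sg_insert hi]
      simp only [lt_irrefl, if_false, one_mul, zero_add, if_true, one_mulVec]
      rw [← mul_assoc, sg_mul_self, one_mul]
  · rw [if_neg hij]
    simp only [zero_mulVec, Pi.zero_apply]
    by_cases hi : i ∈ A
    · by_cases hj : j ∈ A
      · have h1 : j ∈ A.erase i := Finset.mem_erase.2 ⟨Ne.symm hij, hj⟩
        rw [if_pos hi, if_pos h1, if_pos hj]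
        simp
      · have h1 : j ∉ A.erase i := fun h => hj (Finset.mem_of_mem_erase h)
        have h2 : i ∈ insert j A := Finset.mem_insert_of_mem hi
        have h3 : insert j (A.erase i) = (insert j A).erase i := by
          ext k; simp only [Finset.mem_insert, Finset.mem_erase]
          constructor
          · rintro (h | ⟨h, h'⟩)
            · subst h; exact ⟨Ne.symm hij, Or.inl rfl⟩
            · exact ⟨h, Or.inr h'⟩
          · rintro ⟨h, h' | h'⟩
            · exact Or.inl h'
            · exact Or.inr ⟨h, h'⟩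
        rw [if_pos hi, if_neg h1, if_neg hj, if_pos h2, h3, sg_erase hi, sg_insert hj]
        rcases lt_or_gt_of_ne hij with h | h
        · rw [if_pos h, if_neg h.asymm]; ring
        · rw [if_neg h.asymm, if_pos h]; ring
    · rw [if_neg hi]
      by_cases hj : j ∈ A
      · simp [hj]
      · have h2 : i ∉ insert j A := by
          simp [hij, hi]
        rw [if_neg hj, if_neg h2]
        simp

/-- creation operator of a vector -/
def cc : C5 →ₗ[ℂ] MM := ∑ i, (LinearMap.proj i : C5 →ₗ[ℂ] ℂ).smulRight (cr i)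

lemma cc_apply (v : C5) : cc v = ∑ i, v i • cr i := by
  simp [cc, LinearMap.sum_apply]

lemma cr_herm (i : Fin 5) : (cr i)ᴴ = (cr i)ᵀ := by
  ext A B
  simp only [conjTranspose_apply, transpose_apply, cr, of_apply]
  split_ifs
  · simp [sg]
  · simp

lemma ccH_apply (v : C5) : (cc v)ᴴ = ∑ i, (starRingEnd ℂ) (v i) • (cr i)ᵀ := by
  rw [cc_apply, conjTranspose_sum]
  refine Finset.sum_congr rfl fun i _ => ?_
  rw [conjTranspose_smul, cr_herm]
  rfl

lemma cc_anti (u v : C5) : cc u * cc v + cc v * cc u = 0 := by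
  rw [cc_apply, cc_apply, Finset.sum_mul_sum, Finset.sum_mul_sum, Finset.sum_comm,
    ← Finset.sum_add_distrib]
  refine Finset.sum_eq_zero fun j _ => ?_
  rw [← Finset.sum_add_distrib]
  refine Finset.sum_eq_zero fun i _ => ?_
  rw [smul_mul_smul_comm, smul_mul_smul_comm, mul_comm (v j) (u i), ← smul_add, cr_anti, smul_zero]

lemma cc_car (u v : C5) : cc u * (cc v)ᴴ + (cc v)ᴴ * cc u = (hp v u) • (1 : MM) := by
  rw [cc_apply, ccH_apply, Finset.sum_mul_sum, Finset.sum_mul_sum, Finset.sum_comm,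
    ← Finset.sum_add_distrib, hp, Finset.sum_smul]
  refine Finset.sum_congr rfl fun j _ => ?_
  rw [← Finset.sum_add_distrib, Finset.sum_eq_single j]
  · rw [smul_mul_smul_comm, smul_mul_smul_comm, mul_comm (u j), ← smul_add, cr_car, if_pos rfl]
  · intro i _ hij
    rw [smul_mul_smul_comm, smul_mul_smul_comm, mul_comm (u i), ← smul_add, cr_car, if_neg hij,
      smul_zero]
  · simp

lemma cc_sq (u : C5) : cc u * cc u = 0 := by
  have h := cc_anti u u
  have h2 : (2 : ℂ) • (cc u * cc u) = 0 := by rw [two_smul]; exact h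
  rcases smul_eq_zero.1 h2 with h3 | h3
  · norm_num at h3
  · exact h3

lemma ccH_anti (u v : C5) : (cc u)ᴴ * (cc v)ᴴ + (cc v)ᴴ * (cc u)ᴴ = 0 := by
  have h := congrArg conjTranspose (cc_anti v u)
  simpa [conjTranspose_add, conjTranspose_mul] using h

/-- real inner product -/
def ip (u v : C5) : ℝ := ∑ i, ((u i).re * (v i).re + (u i).im * (v i).im)

lemma hp_re (u v : C5) : (hp u v).re = ip u v := by
  simp only [hp, ip, Complex.re_sum, Complex.mul_re, Complex.conj_re, Complex.conj_im]
  refine Finset.sum_congr rfl fun i _ => ?_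
  ring

lemma hp_conj (u v : C5) : (starRingEnd ℂ) (hp u v) = hp v u := by
  simp only [hp, map_sum, map_mul, Complex.conj_conj]
  refine Finset.sum_congr rfl fun i _ => ?_
  ring

lemma hp_add_hp (u v : C5) : hp u v + hp v u = ((2 * ip u v : ℝ) : ℂ) := by
  rw [← hp_conj u v, Complex.add_conj, hp_re]

/-- Clifford multiplication -/
def gm : C5 →ₗ[ℝ] MM where
  toFun v := cc v + (cc v)ᴴ
  map_add' u v := by
    rw [map_add, conjTranspose_add]; abel
  map_smul' r v := by
    have h : cc (r • v) = (r : ℂ) • cc v := by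
      rw [← map_smul]; rfl
    have h2 : (r : ℝ) • (cc v + (cc v)ᴴ) = (r : ℂ) • (cc v + (cc v)ᴴ) := rfl
    simp only [RingHom.id_apply]
    rw [h, h2, conjTranspose_smul, smul_add]
    simp

lemma gm_apply (v : C5) : gm v = cc v + (cc v)ᴴ := rfl

lemma gm_herm (v : C5) : (gm v)ᴴ = gm v := by
  rw [gm_apply, conjTranspose_add, conjTranspose_conjTranspose, add_comm]

lemma gm_gm (u v : C5) : gm u * gm v + gm v * gm u = ((2 * ip u v : ℝ) : ℂ) • (1 : MM) := by
  rw [← hp_add_hp, add_smul, ← cc_car v u, ← cc_car u v]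
  have h1 := cc_anti u v
  have h2 := ccH_anti u v
  simp only [gm_apply]
  have : (cc u + (cc u)ᴴ) * (cc v + (cc v)ᴴ) + (cc v + (cc v)ᴴ) * (cc u + (cc u)ᴴ) =
      (cc u * cc v + cc v * cc u) + ((cc u)ᴴ * (cc v)ᴴ + (cc v)ᴴ * (cc u)ᴴ) +
      (cc v * (cc u)ᴴ + (cc u)ᴴ * cc v + (cc u * (cc v)ᴴ + (cc v)ᴴ * cc u)) := by
    noncomm_ring
  rw [this, h1, h2]
  simp

lemma gm_cc (u v : C5) : gm u * cc v + cc v * gm u = (hp u v) • (1 : MM) := by
  rw [← cc_car v u]
  have h1 := cc_anti u v
  simp only [gm_apply]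
  have : (cc u + (cc u)ᴴ) * cc v + cc v * (cc u + (cc u)ᴴ) =
      (cc u * cc v + cc v * cc u) + (cc v * (cc u)ᴴ + (cc u)ᴴ * cc v) := by
    noncomm_ring
  rw [this, h1, zero_add]

lemma gm_ccH (u v : C5) : gm u * (cc v)ᴴ + (cc v)ᴴ * gm u = (hp v u) • (1 : MM) := by
  have h := congrArg conjTranspose (gm_cc u v)
  rw [conjTranspose_add, conjTranspose_mul, conjTranspose_mul, gm_herm, conjTranspose_smul,
    conjTranspose_one] at h
  rw [add_comm, h, ← hp_conj u v]
  rfl

lemma ip_smul_I (v : C5) : ip v (Complex.I • v) = 0 := by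
  simp only [ip, Pi.smul_apply, smul_eq_mul, Complex.mul_re, Complex.mul_im, Complex.I_re,
    Complex.I_im]
  refine Finset.sum_eq_zero fun i _ => ?_
  ring

lemma gm_gmI (v : C5) (hv : hp v v = 1) :
    gm v * gm (Complex.I • v) = Complex.I • ((1 : MM) - (2 : ℂ) • (cc v * (cc v)ᴴ)) := by
  have h1 := cc_sq v
  have h2 : (cc v)ᴴ * (cc v)ᴴ = 0 := by
    have h := congrArg conjTranspose h1
    simpa [conjTranspose_mul] using h
  have h3 : gm (Complex.I • v) = Complex.I • (cc v - (cc v)ᴴ) := by
    rw [gm_apply, map_smul, conjTranspose_smul, smul_sub, sub_eq_add_neg, ← neg_smul]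
    congr 2
    simp
  have h4 : (cc v)ᴴ * cc v = 1 - cc v * (cc v)ᴴ := by
    have h := cc_car v v
    rw [hv, one_smul] at h
    rw [← h]; abel
  rw [h3, gm_apply, mul_smul_comm]
  congr 1
  have : (cc v + (cc v)ᴴ) * (cc v - (cc v)ᴴ) =
      cc v * cc v - (cc v)ᴴ * (cc v)ᴴ - cc v * (cc v)ᴴ + (cc v)ᴴ * cc v := by
    noncomm_ring
  rw [this, h1, h2, h4, two_smul]
  abel

/-- the projection to degree `j` -/
def Q (j : ℕ) : MM := Matrix.diagonal fun A => if A.card = j then 1 else 0

/-- the parity operator -/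
def Par : MM := Matrix.diagonal fun A => (-1 : ℂ) ^ A.card

lemma cr_support {i : Fin 5} {A B : I5} (h : cr i A B ≠ 0) : i ∈ A ∧ B = A.erase i := by
  by_contra h2
  apply h
  simp only [cr, of_apply]
  rw [if_neg h2]

lemma Q_cr (j : ℕ) (i : Fin 5) : Q (j + 1) * cr i = cr i * Q j := by
  ext A B
  rw [Q, Q, diagonal_mul, mul_diagonal]
  by_cases h : cr i A B = 0
  · rw [h]; simp
  · obtain ⟨h1, h2⟩ := cr_support h
    have h3 := Finset.card_erase_add_one h1
    rw [← h2] at h3
    rw [← h3]
    by_cases h4 : B.card = j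
    · simp [h4]
    · have : ¬ (B.card + 1 = j + 1) := by omega
      simp [h4]

lemma Q0_cr (i : Fin 5) : Q 0 * cr i = 0 := by
  ext A B
  rw [Q, diagonal_mul]
  by_cases h : cr i A B = 0
  · rw [h]; simp
  · obtain ⟨h1, h2⟩ := cr_support h
    have h3 := Finset.card_erase_add_one h1
    rw [if_neg (by omega)]
    simp

lemma Par_cr (i : Fin 5) : Par * cr i = -(cr i * Par) := by
  ext A B
  rw [Par, diagonal_mul, neg_apply, mul_diagonal]
  by_cases h : cr i A B = 0
  · rw [h]; simp
  · obtain ⟨h1, h2⟩ := cr_support h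
    have h3 := Finset.card_erase_add_one h1
    rw [← h2] at h3
    rw [← h3, pow_succ]
    ring

lemma Q_cc (j : ℕ) (v : C5) : Q (j + 1) * cc v = cc v * Q j := by
  rw [cc_apply, Finset.mul_sum, Finset.sum_mul]
  refine Finset.sum_congr rfl fun i _ => ?_
  rw [mul_smul_comm, smul_mul_assoc, Q_cr]

lemma Q0_cc (v : C5) : Q 0 * cc v = 0 := by
  rw [cc_apply, Finset.mul_sum]
  refine Finset.sum_eq_zero fun i _ => ?_
  rw [mul_smul_comm, Q0_cr, smul_zero]

lemma Par_cc (v : C5) : Par * cc v = -(cc v * Par) := by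
  rw [cc_apply, Finset.mul_sum, Finset.sum_mul, ← Finset.sum_neg_distrib]
  refine Finset.sum_congr rfl fun i _ => ?_
  rw [mul_smul_comm, smul_mul_assoc, Par_cr, smul_neg]

lemma Q_herm (j : ℕ) : (Q j)ᴴ = Q j := by
  rw [Q, diagonal_conjTranspose]
  congr 1
  funext A
  simp only [Pi.star_apply]
  split_ifs <;> simp

lemma Par_herm : Parᴴ = Par := by
  rw [Par, diagonal_conjTranspose]
  congr 1
  funext A
  simp

lemma Par_sq : Par * Par = 1 := by
  rw [Par, diagonal_mul_diagonal, ← diagonal_one]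
  congr 1
  funext A
  rw [← mul_pow]; simp

lemma Q_mul (j k : ℕ) : Q j * Q k = if j = k then Q j else 0 := by
  rw [Q, Q, diagonal_mul_diagonal]
  by_cases h : j = k
  · subst h
    rw [if_pos rfl]
    congr 1
    funext A
    split_ifs <;> simp
  · rw [if_neg h, ← diagonal_zero]
    congr 1
    funext A
    by_cases h1 : A.card = j
    · have : A.card ≠ k := by omega
      simp [h1, h]
    · simp [h1]

lemma Q_ccH (j : ℕ) (v : C5) : (cc v)ᴴ * Q (j + 1) = Q j * (cc v)ᴴ := by
  have h := congrArg conjTranspose (Q_cc j v)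
  simpa [conjTranspose_mul, Q_herm] using h

lemma Q0_ccH (v : C5) : (cc v)ᴴ * Q 0 = 0 := by
  have h := congrArg conjTranspose (Q0_cc v)
  simpa [conjTranspose_mul, Q_herm] using h

lemma Par_ccH (v : C5) : Par * (cc v)ᴴ = -((cc v)ᴴ * Par) := by
  have h := congrArg conjTranspose (Par_cc v)
  rw [conjTranspose_neg, conjTranspose_mul, conjTranspose_mul, Par_herm] at h
  rw [h, neg_neg]

lemma Par_gm (v : C5) : Par * gm v = -(gm v * Par) := by
  rw [gm_apply, mul_add, Par_cc, Par_ccH, add_mul]
  abel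

/-- the odd projection -/
def Od : MM := (1 / 2 : ℂ) • (1 - Par)

lemma Od_eq : Od = Q 1 + Q 3 + Q 5 := by
  rw [Od, Par, Q, Q, Q, ← diagonal_one, diagonal_sub, ← diagonal_smul, diagonal_add, diagonal_add]
  congr 1
  funext A
  have h : A.card ≤ 5 := by simpa using Finset.card_le_univ A
  simp only [Pi.smul_apply, smul_eq_mul]
  interval_cases A.card <;> norm_num

end Pool.Agent.TH615.SD
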