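import Pool.Agent.TH615.SD.Alg

/-!
# SD-K5, part 7: charge conjugation, weights
-/

set_option linter.unusedSimpArgs false
open scoped ContDiff Topology
open Set Matrix

noncomputable section

namespace Pool.Agent.TH615.SD
open Pool.Agent.TH179.SD

variable {z : C5} {J : C5 →ₗ[ℝ] C5} {f g : Fin 4 → C5}

/-- the sign of charge conjugation -/
def ms (B : I5) : ℂ := ∏ i ∈ B, (-1 : ℂ) ^ (i : ℕ)

/-- charge conjugation -/
def Mt : MM := Matrix.of fun A B => if A = Bᶜ then ms B else 0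

lemma ms_sq (B : I5) : ms B * ms B = 1 := by
  rw [ms, ← Finset.prod_mul_distrib]
  refine Finset.prod_eq_one fun i _ => ?_
  rw [← mul_pow]; simp

lemma ms_insert {i : Fin 5} {B : I5} (h : i ∉ B) : ms (insert i B) = (-1 : ℂ) ^ (i : ℕ) * ms B := by
  rw [ms, Finset.prod_insert h]; rfl

lemma ms_real (B : I5) : (starRingEnd ℂ) (ms B) = ms B := by
  rw [ms, map_prod]
  refine Finset.prod_congr rfl fun i _ => ?_
  simp

lemma sg_compl (i : Fin 5) (A : I5) : sg i A * sg i Aᶜ = (-1 : ℂ) ^ (i : ℕ) := by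
  rw [sg, sg, ← pow_add]
  congr 1
  have h1 : A.filter (· < i) ∪ Aᶜ.filter (· < i) = Finset.univ.filter (· < i) := by
    ext k
    simp only [Finset.mem_union, Finset.mem_filter, Finset.mem_compl, Finset.mem_univ, true_and]
    tauto
  have h2 : Disjoint (A.filter (· < i)) (Aᶜ.filter (· < i)) := by
    rw [Finset.disjoint_left]
    intro k hk hk'
    simp only [Finset.mem_filter, Finset.mem_compl] at hk hk'
    exact hk'.1 hk.1
  rw [← Finset.card_union_of_disjoint h2, h1]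
  have h3 : Finset.univ.filter (· < i) = Finset.Iio i := by
    ext k; simp
  rw [h3, Fin.card_Iio]

lemma Mt_mulVec (s : I5 → ℂ) (A : I5) : (Mt *ᵥ s) A = ms Aᶜ * s Aᶜ := by
  simp only [mulVec, dotProduct, Mt, of_apply]
  rw [Finset.sum_eq_single Aᶜ]
  · simp
  · intro B _ hB
    rw [if_neg, zero_mul]
    intro h
    apply hB
    rw [h, compl_compl]
  · simp

lemma Mt_cr (i : Fin 5) : Mt * cr i = (cr i)ᵀ * Mt := by
  apply Matrix.toLin'.injective
  apply LinearMap.ext
  intro s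
  funext A
  simp only [toLin'_apply, ← mulVec_mulVec, cr_mulVec, crT_mulVec, Mt_mulVec]
  by_cases hi : i ∈ A
  · have h1 : i ∉ Aᶜ := by simpa using hi
    rw [if_neg h1, if_pos hi, mul_zero]
  · have h1 : i ∈ Aᶜ := by simpa using hi
    have h2 : Aᶜ.erase i = (insert i A)ᶜ := by
      ext k
      simp only [Finset.mem_erase, Finset.mem_compl, Finset.mem_insert]
      tauto
    have h3 : i ∉ (insert i A)ᶜ := by simp
    have h4 : Aᶜ = insert i (insert i A)ᶜ := by
      rw [← h2, Finset.insert_erase h1]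
    have h5 := sg_compl i (insert i A)
    rw [sg_insert hi] at h5
    simp only [lt_irrefl, if_false, one_mul] at h5
    rw [if_pos h1, if_neg hi, h2]
    have h6 : ms Aᶜ = (-1 : ℂ) ^ (i : ℕ) * ms (insert i A)ᶜ := by
      conv_lhs => rw [h4]
      rw [ms_insert h3]
    have h7 : sg i Aᶜ = sg i (insert i A)ᶜ := by
      conv_lhs => rw [h4]
      rw [sg_insert h3]
      simp
    rw [h6, h7, ← h5]
    have h8 := sg_mul_self i (insert i A)ᶜ
    linear_combination (sg i A * ms (insert i A)ᶜ * s (insert i A)ᶜ) * h8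

lemma Mt_mul_T : Mt * Mtᵀ = 1 := by
  ext A B
  rw [mul_apply, one_apply, Finset.sum_eq_single Aᶜ]
  · simp only [transpose_apply, Mt, of_apply, compl_compl, if_true]
    by_cases h : A = B
    · subst h; simp [ms_sq]
    · rw [if_neg h, if_neg (fun h' => h h'.symm), mul_zero]
  · intro C _ hC
    simp only [Mt, of_apply]
    rw [if_neg, zero_mul]
    intro h
    apply hC
    rw [h, compl_compl]
  · simp

lemma Mt_herm : Mtᴴ = Mtᵀ := by
  ext A B
  simp only [conjTranspose_apply, transpose_apply, Mt, of_apply]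
  split_ifs
  · exact ms_real _
  · simp

lemma Mt_mul_H : Mt * Mtᴴ = 1 := by rw [Mt_herm, Mt_mul_T]

lemma Mt_H_mul : Mtᴴ * Mt = 1 := mul_eq_one_comm.1 Mt_mul_H

/-- complex conjugation of matrices -/
def cm (X : MM) : MM := X.map (starRingEnd ℂ)

lemma cm_mul (X Y : MM) : cm (X * Y) = cm X * cm Y := by
  rw [cm, Matrix.map_mul]; rfl

lemma cm_add (X Y : MM) : cm (X + Y) = cm X + cm Y := by
  ext A B; simp [cm]

lemma cm_neg (X : MM) : cm (-X) = -cm X := by
  ext A B; simp [cm]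

lemma cm_sub (X Y : MM) : cm (X - Y) = cm X - cm Y := by
  ext A B; simp [cm]

lemma cm_smul (c : ℂ) (X : MM) : cm (c • X) = (starRingEnd ℂ) c • cm X := by
  ext A B; simp [cm]

lemma cm_one : cm 1 = 1 := by
  ext A B
  by_cases h : A = B
  · subst h; simp [cm]
  · simp [cm, h]

lemma cm_H (X : MM) : cm Xᴴ = (cm X)ᴴ := by
  ext A B; simp [cm]

lemma cm_sum {ι : Type*} (s : Finset ι) (X : ι → MM) : cm (∑ i ∈ s, X i) = ∑ i ∈ s, cm (X i) := by
  classical
  induction s using Finset.induction_on with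
  | empty => ext A B; simp [cm]
  | insert a s ha ih => rw [Finset.sum_insert ha, Finset.sum_insert ha, cm_add, ih]

lemma cm_cr (i : Fin 5) : cm (cr i) = cr i := by
  ext A B
  simp only [cm, map_apply, cr, of_apply]
  split_ifs
  · simp [sg]
  · simp

lemma cm_Par : cm Par = Par := by
  ext A B
  simp only [cm, map_apply, Par, diagonal_apply]
  split_ifs <;> simp

lemma Mt_cc (v : C5) : Mt * cm (cc v) = (cc v)ᴴ * Mt := by
  rw [ccH_apply, cc_apply, cm_sum, Finset.mul_sum, Finset.sum_mul]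
  refine Finset.sum_congr rfl fun i _ => ?_
  rw [cm_smul, cm_cr, mul_smul_comm, smul_mul_assoc, Mt_cr]

lemma Mt_ccH (v : C5) : Mt * cm ((cc v)ᴴ) = cc v * Mt := by
  have h := congrArg conjTranspose (Mt_cc v)
  rw [conjTranspose_mul, conjTranspose_mul, conjTranspose_conjTranspose, ← cm_H] at h
  calc Mt * cm ((cc v)ᴴ) = Mt * (cm ((cc v)ᴴ) * Mtᴴ) * Mt := by
        rw [mul_assoc, mul_assoc, Mt_H_mul, mul_one]
    _ = (Mt * Mtᴴ) * cc v * Mt := by rw [h]; noncomm_ring
    _ = cc v * Mt := by rw [Mt_mul_H, one_mul]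

lemma Mt_gm (v : C5) : Mt * cm (gm v) = gm v * Mt := by
  rw [gm_apply, cm_add, mul_add, Mt_cc, Mt_ccH, add_mul, add_comm]

lemma Mt_DD (J : C5 →ₗ[ℝ] C5) : Mt * cm (DD J) = -(DD J * Mt) := by
  rw [DD, cm_smul, cm_sum, mul_smul_comm, Finset.mul_sum, smul_mul_assoc, Finset.sum_mul]
  have h1 : ∀ a, Mt * cm (gm (rr a) * gm (J (rr a))) = gm (rr a) * gm (J (rr a)) * Mt := by
    intro a
    rw [cm_mul, ← mul_assoc, Mt_gm, mul_assoc, Mt_gm, ← mul_assoc]
  rw [Finset.sum_congr rfl fun a _ => h1 a, ← neg_smul]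
  congr 1
  simp only [map_div₀, Complex.conj_I, map_ofNat]
  ring

lemma Mt_Par : Mt * Par = -(Par * Mt) := by
  apply Matrix.toLin'.injective
  apply LinearMap.ext
  intro s
  funext A
  simp only [toLin'_apply, neg_mulVec, ← mulVec_mulVec, Pi.neg_apply, Mt_mulVec, Par,
    mulVec_diagonal]
  rw [Finset.card_compl, Fintype.card_fin]
  have h : A.card ≤ 5 := by simpa using Finset.card_le_univ A
  have h2 : (-1 : ℂ) ^ (5 - A.card) = -(-1 : ℂ) ^ A.card := by
    interval_cases A.card <;> norm_num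
  rw [h2]
  ring

/-- the operator `T` -/
def TT (z : C5) : MM := cc z * Mt

lemma TT_mul_H (z : C5) : TT z * (TT z)ᴴ = nn z := by
  rw [TT, conjTranspose_mul, nn]
  calc cc z * Mt * (Mtᴴ * (cc z)ᴴ) = cc z * (Mt * Mtᴴ) * (cc z)ᴴ := by noncomm_ring
    _ = _ := by rw [Mt_mul_H, mul_one]

lemma conj_two : (starRingEnd ℂ) (2 : ℂ) = 2 := Complex.conj_ofNat 2

lemma cm_Od : cm Od = Od := by
  rw [Od, cm_smul, cm_sub, cm_one, cm_Par]
  congr 1
  simp [conj_two]

lemma TT_nn (z : C5) : TT z * cm (nn z) = nn z * TT z := by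
  rw [TT, nn, cm_mul]
  calc cc z * Mt * (cm (cc z) * cm ((cc z)ᴴ)) = cc z * (Mt * cm (cc z)) * cm ((cc z)ᴴ) := by
        noncomm_ring
    _ = cc z * (cc z)ᴴ * (Mt * cm ((cc z)ᴴ)) := by rw [Mt_cc]; noncomm_ring
    _ = _ := by rw [Mt_ccH]

lemma TT_Od (z : C5) : TT z * Od = Od * TT z := by
  have h1 : TT z * Par = Par * TT z := by
    rw [TT, mul_assoc, Mt_Par, mul_neg, ← mul_assoc, ← neg_mul, ← Par_cc]
    simp only [mul_assoc]
  rw [Od, mul_smul_comm, smul_mul_assoc, mul_sub, sub_mul, h1, mul_one, one_mul]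

lemma TT_PP (z : C5) : TT z * cm (PP z) = PP z * TT z := by
  rw [PP, cm_mul, cm_Od, ← mul_assoc, TT_Od, mul_assoc, TT_nn, ← mul_assoc]

lemma PJ.TT_DD (h : PJ z J) : TT z * cm (DD J) = -(DD J * TT z) := by
  rw [TT, mul_assoc, Mt_DD, mul_neg, ← mul_assoc, ← mul_assoc, h.DD_cc]

lemma PJ.TT_EE (h : PJ z J) : TT z * cm (EE 1 z J) = EE (-1) z J * TT z := by
  rw [EE, EE, cm_smul, cm_add, cm_smul, cm_mul, mul_smul_comm, mul_add, mul_smul_comm,
    ← mul_assoc, TT_PP, mul_assoc, h.TT_DD, smul_mul_assoc, add_mul, smul_mul_assoc]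
  simp only [map_one, map_div₀, map_ofNat, one_smul, neg_smul, mul_neg, mul_assoc]

lemma TTH_TT (z : C5) : (TT z)ᴴ * TT z = cm (nn z) := by
  rw [TT, conjTranspose_mul]
  have h1 : Mt * cm (nn z) = (cc z)ᴴ * cc z * Mt := by
    rw [nn, cm_mul, ← mul_assoc, Mt_cc, mul_assoc, Mt_ccH, ← mul_assoc]
  calc Mtᴴ * (cc z)ᴴ * (cc z * Mt) = Mtᴴ * ((cc z)ᴴ * cc z * Mt) := by noncomm_ring
    _ = (Mtᴴ * Mt) * cm (nn z) := by rw [← h1, mul_assoc]
    _ = cm (nn z) := by rw [Mt_H_mul, one_mul]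

/-! ### weights -/

/-- the weight of a basis vector -/
def w1 (i : Fin 5) : ℤ := if i = 0 then -1 else 1

/-- the weight of a form -/
def wt (A : I5) : ℤ := ∑ i ∈ A, w1 i

lemma wt_compl (A : I5) : wt Aᶜ = 3 - wt A := by
  have h := Finset.sum_add_sum_compl A w1
  have h2 : ∑ i, w1 i = 3 := by decide
  rw [h2] at h
  unfold wt
  linarith

/-- the action of the circle on matrices -/
def cU (t : Circle) (X : MM) : MM := Matrix.of fun A B => (t : ℂ) ^ (wt A - wt B) * X A B

lemma cU_apply (t : Circle) (X : MM) (A B : I5) :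
    cU t X A B = (t : ℂ) ^ (wt A - wt B) * X A B := rfl

lemma cU_mul (t : Circle) (X Y : MM) : cU t (X * Y) = cU t X * cU t Y := by
  ext A B
  rw [mul_apply, cU_apply, mul_apply, Finset.mul_sum]
  refine Finset.sum_congr rfl fun C _ => ?_
  rw [cU_apply, cU_apply]
  have h : (t : ℂ) ^ (wt A - wt B) = (t : ℂ) ^ (wt A - wt C) * (t : ℂ) ^ (wt C - wt B) := by
    rw [← zpow_add₀ (Circle.coe_ne_zero t)]
    congr 1; ring
  rw [h]; ring

lemma cU_add (t : Circle) (X Y : MM) : cU t (X + Y) = cU t X + cU t Y := by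
  ext A B
  simp only [cU_apply, Matrix.add_apply]; ring

lemma cU_sub (t : Circle) (X Y : MM) : cU t (X - Y) = cU t X - cU t Y := by
  ext A B
  simp only [cU_apply, Matrix.sub_apply]; ring

lemma cU_smul (t : Circle) (c : ℂ) (X : MM) : cU t (c • X) = c • cU t X := by
  ext A B
  simp only [cU_apply, Matrix.smul_apply, smul_eq_mul]; ring

lemma cU_sum (t : Circle) {ι : Type*} (s : Finset ι) (X : ι → MM) :
    cU t (∑ i ∈ s, X i) = ∑ i ∈ s, cU t (X i) := by
  classical
  induction s using Finset.induction_on with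
  | empty => ext A B; simp [cU]
  | insert a s ha ih => rw [Finset.sum_insert ha, Finset.sum_insert ha, cU_add, ih]

lemma cU_H (t : Circle) (X : MM) : cU t Xᴴ = (cU t X)ᴴ := by
  ext A B
  simp only [cU_apply, conjTranspose_apply, star_mul', Complex.star_def, map_zpow₀]
  rw [← Circle.coe_inv_eq_conj, Circle.coe_inv, _root_.inv_zpow, ← _root_.zpow_neg]
  congr 2
  ring

lemma cU_diag (t : Circle) (d : I5 → ℂ) : cU t (diagonal d) = diagonal d := by
  ext A B
  rw [cU_apply]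
  by_cases h : A = B
  · subst h; simp
  · rw [diagonal_apply_ne _ h, mul_zero]

lemma cU_cr (t : Circle) (i : Fin 5) : cU t (cr i) = (t : ℂ) ^ (w1 i) • cr i := by
  ext A B
  rw [cU_apply, Matrix.smul_apply, smul_eq_mul]
  by_cases h : cr i A B = 0
  · rw [h]; simp
  · obtain ⟨h1, h2⟩ := cr_support h
    have h3 : wt A = wt B + w1 i := by
      rw [h2]
      exact (Finset.sum_erase_add A w1 h1).symm
    rw [h3]
    congr 2
    ring

lemma rho_apply (t : Circle) (v : C5) (i : Fin 5) : rho t v i = (t : ℂ) ^ (w1 i) * v i := by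
  unfold rho w1
  split_ifs
  · rw [_root_.zpow_neg, zpow_one, ← Circle.coe_inv_eq_conj, Circle.coe_inv]
  · rw [zpow_one]

lemma cU_cc (t : Circle) (v : C5) : cU t (cc v) = cc (rho t v) := by
  rw [cc_apply, cc_apply, cU_sum]
  refine Finset.sum_congr rfl fun i _ => ?_
  rw [cU_smul, cU_cr, smul_smul, rho_apply, mul_comm]

lemma cU_gm (t : Circle) (v : C5) : cU t (gm v) = gm (rho t v) := by
  rw [gm_apply, gm_apply, cU_add, cU_H, cU_cc]

/-- `rho` as a linear map -/
def rhoL (t : Circle) : C5 →ₗ[ℝ] C5 where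
  toFun v := rho t v
  map_add' u v := by
    funext i
    simp only [rho_apply, Pi.add_apply]; ring
  map_smul' c v := by
    funext i
    simp only [rho_apply, Pi.smul_apply, RingHom.id_apply, Complex.real_smul]; ring

lemma rho_hp (t : Circle) (u v : C5) : hp (rho t u) (rho t v) = hp u v := by
  simp only [hp, rho_apply, map_mul, map_zpow₀]
  refine Finset.sum_congr rfl fun i _ => ?_
  rw [← Circle.coe_inv_eq_conj, Circle.coe_inv, _root_.inv_zpow]
  have h : ((t : ℂ) ^ w1 i) ≠ 0 := zpow_ne_zero _ (Circle.coe_ne_zero t)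
  field_simp

lemma rho_ip (t : Circle) (u v : C5) : ip (rho t u) (rho t v) = ip u v := by
  rw [← hp_re, rho_hp, hp_re]

lemma cU_DD (t : Circle) (J J' : C5 →ₗ[ℝ] C5) (hJ : ∀ u, J' (rho t u) = rho t (J u)) :
    cU t (DD J) = DD J' := by
  have h1 := basis_indep (rhoL t) (fun u v => rho_ip t u v) J'
  rw [DD, DD, ← h1, cU_smul, cU_sum]
  congr 1
  refine Finset.sum_congr rfl fun a _ => ?_
  rw [cU_mul, cU_gm, cU_gm]
  change _ = gm (rho t (rr a)) * gm (J' (rho t (rr a)))
  rw [hJ]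

end Pool.Agent.TH615.SD
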