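import Pool.Agent.TH615.SD.Cliff

/-!
# SD-K5, part 2: products of Clifford multiplications by orthogonal vectors and determinants
-/

open scoped ContDiff Topology
open Set Matrix

noncomputable section

namespace Pool.Agent.TH615.SD
open Pool.Agent.TH179.SD

lemma swap_succ_succ {n : ℕ} (a b k : Fin n) :
    Equiv.swap a.succ b.succ k.succ = (Equiv.swap a b k).succ := by
  simp only [Equiv.swap_apply_def, Fin.succ_inj]
  split_ifs <;> rfl

lemma swap_prod {A : Type*} [Ring A] : ∀ (n : ℕ) (i : Fin n) (x : Fin (n + 1) → A),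
    (∀ a b, a ≠ b → x a * x b = -(x b * x a)) →
    (List.ofFn (x ∘ Equiv.swap i.castSucc i.succ)).prod = -(List.ofFn x).prod := by
  intro n
  induction n with
  | zero => intro i; exact i.elim0
  | succ n ih =>
    intro i x hx
    refine Fin.cases ?_ (fun j => ?_) i
    · rw [List.ofFn_succ, List.ofFn_succ, List.ofFn_succ (f := x), List.ofFn_succ]
      simp only [List.prod_cons, Function.comp_apply]
      have h0 : Equiv.swap (Fin.castSucc (0 : Fin (n + 1))) (Fin.succ 0) 0 = Fin.succ 0 := by
        rw [Fin.castSucc_zero, Equiv.swap_apply_left]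
      have h1 : Equiv.swap (Fin.castSucc (0 : Fin (n + 1))) (Fin.succ 0) (Fin.succ 0) = 0 := by
        rw [Fin.castSucc_zero, Equiv.swap_apply_right]
      have h2 : ∀ k : Fin n, Equiv.swap (Fin.castSucc (0 : Fin (n + 1))) (Fin.succ 0)
          (Fin.succ (Fin.succ k)) = Fin.succ (Fin.succ k) := by
        intro k
        rw [Fin.castSucc_zero]
        apply Equiv.swap_apply_of_ne_of_ne
        · exact Fin.succ_ne_zero _
        · intro h
          exact Fin.succ_ne_zero k (Fin.succ_injective _ h)
      rw [h0, h1]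
      simp only [h2]
      rw [← mul_assoc, hx _ _ (Fin.succ_ne_zero 0), neg_mul, mul_assoc]
    · rw [List.ofFn_succ, List.ofFn_succ (f := x)]
      simp only [List.prod_cons, Function.comp_apply]
      have h0 : Equiv.swap (Fin.castSucc j.succ) (Fin.succ j.succ) 0 = 0 := by
        apply Equiv.swap_apply_of_ne_of_ne
        · rw [← Fin.succ_castSucc]; exact (Fin.succ_ne_zero _).symm
        · exact (Fin.succ_ne_zero _).symm
      have h1 : ∀ k : Fin (n + 1), Equiv.swap (Fin.castSucc j.succ) (Fin.succ j.succ) k.succ =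
          (Equiv.swap j.castSucc j.succ k).succ := by
        intro k
        rw [← Fin.succ_castSucc, swap_succ_succ]
      rw [h0]
      simp only [h1]
      have h3 := ih j (fun k => x k.succ) (fun a b hab => hx _ _ fun h => hab (Fin.succ_injective _ h))
      have h4 : (List.ofFn fun k => x (Equiv.swap j.castSucc j.succ k).succ).prod =
          -(List.ofFn fun k => x k.succ).prod := h3
      rw [h4, mul_neg]

lemma perm_prod {A : Type*} [Ring A] {n : ℕ} (σ : Equiv.Perm (Fin (n + 1))) :
    ∀ (x : Fin (n + 1) → A), (∀ a b, a ≠ b → x a * x b = -(x b * x a)) →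
    (List.ofFn (x ∘ σ)).prod = Equiv.Perm.sign σ • (List.ofFn x).prod := by
  have hσ : σ ∈ Submonoid.closure
      (Set.range fun i : Fin n ↦ Equiv.swap i.castSucc i.succ) := by
    rw [Equiv.Perm.mclosure_swap_castSucc_succ]; trivial
  induction hσ using Submonoid.closure_induction with
  | mem τ hτ =>
    obtain ⟨i, rfl⟩ := hτ
    intro x hx
    rw [swap_prod n i x hx, Equiv.Perm.sign_swap (Fin.castSucc_lt_succ).ne]
    simp
  | one =>
    intro x _
    simp
  | mul σ τ _ _ h1 h2 =>
    intro x hx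
    have h3 : x ∘ ⇑(σ * τ) = (x ∘ σ) ∘ τ := rfl
    rw [h3, h2 (x ∘ σ) (fun a b hab => hx _ _ fun h => hab (σ.injective h)), h1 x hx,
      map_mul, smul_smul, mul_comm]

/-- the standard real basis of `ℂ⁵` -/
def rr (a : Fin 10) : C5 :=
  Pi.single ⟨(a : ℕ) / 2, by omega⟩ (if (a : ℕ) % 2 = 0 then 1 else Complex.I)

/-- the real coordinates -/
def co : C5 ≃ₗ[ℝ] (Fin 10 → ℝ) where
  toFun v a := if (a : ℕ) % 2 = 0 then (v ⟨(a : ℕ) / 2, by omega⟩).re
    else (v ⟨(a : ℕ) / 2, by omega⟩).im
  map_add' u v := by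
    funext a
    simp only [Pi.add_apply, Complex.add_re, Complex.add_im]
    split_ifs <;> rfl
  map_smul' c v := by
    funext a
    simp only [Pi.smul_apply, Complex.smul_re, Complex.smul_im, RingHom.id_apply]
    split_ifs <;> rfl
  invFun w i := ⟨w ⟨2 * i, by omega⟩, w ⟨2 * i + 1, by omega⟩⟩
  left_inv v := by
    funext i
    have h1 : (2 * (i : ℕ)) / 2 = i := by omega
    have h2 : (2 * (i : ℕ) + 1) / 2 = i := by omega
    have h3 : ¬ ((2 * (i : ℕ) + 1) % 2 = 0) := by omega
    apply Complex.ext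
    · simp
    · simp [h2]
  right_inv w := by
    funext a
    simp only
    split_ifs with h
    · congr 1
      apply Fin.ext
      simp only
      omega
    · congr 1
      apply Fin.ext
      simp only
      omega

/-- the real basis -/
def bs : Module.Basis (Fin 10) ℝ C5 := Module.Basis.ofEquivFun co

lemma bs_apply (a : Fin 10) : bs a = rr a := by
  rw [bs, Module.Basis.coe_ofEquivFun]
  apply co.injective
  rw [LinearEquiv.apply_symm_apply]
  funext b
  simp only [co, rr, LinearEquiv.coe_mk, LinearMap.coe_mk, AddHom.coe_mk]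
  fin_cases a <;> fin_cases b <;> simp

lemma co_eq_ip (v : C5) (a : Fin 10) : co v a = ip (rr a) v := by
  simp only [co, rr, ip, LinearEquiv.coe_mk, LinearMap.coe_mk, AddHom.coe_mk]
  split_ifs with h
  · rw [Finset.sum_eq_single ⟨(a : ℕ) / 2, by omega⟩]
    · simp
    · intro b _ hb
      rw [Pi.single_eq_of_ne hb]; simp
    · simp
  · rw [Finset.sum_eq_single ⟨(a : ℕ) / 2, by omega⟩]
    · simp
    · intro b _ hb
      rw [Pi.single_eq_of_ne hb]; simp
    · simp

lemma sum_co (v : C5) : ∑ a, ip (rr a) v • rr a = v := by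
  have h := bs.sum_equivFun v
  have h1 : bs.equivFun = co := Module.Basis.equivFun_ofEquivFun co
  rw [h1] at h
  simp only [bs_apply, co_eq_ip] at h
  exact h

lemma ip_eq_sum (u v : C5) : ip u v = ∑ a, ip (rr a) u * ip (rr a) v := by
  simp only [← co_eq_ip]
  simp only [co, LinearEquiv.coe_mk, LinearMap.coe_mk, AddHom.coe_mk, ip]
  simp only [Fin.sum_univ_succ, Fin.sum_univ_zero]
  simp
  ring

lemma gm_anti {u v : C5} (h : ip u v = 0) : gm u * gm v = -(gm v * gm u) := by
  have h1 := gm_gm u v
  rw [h] at h1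
  rw [eq_neg_iff_add_eq_zero, h1]
  simp

lemma gm_sq {u : C5} (h : ip u u = 1) : gm u * gm u = 1 := by
  have h1 := gm_gm u u
  rw [h, ← two_smul ℂ] at h1
  have h2 : ((2 * (1 : ℝ) : ℝ) : ℂ) = 2 := by push_cast; ring
  rw [h2] at h1
  exact smul_right_injective MM (two_ne_zero' ℂ) h1

/-- the product of Clifford multiplications -/
def mlt (n : ℕ) : MultilinearMap ℝ (fun _ : Fin (n + 1) => C5) MM :=
  (MultilinearMap.mkPiAlgebraFin ℝ (n + 1) MM).compLinearMap (fun _ => gm)

/-- the number of permutations -/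
def npp (n : ℕ) : ℝ := (Fintype.card (Equiv.Perm (Fin (n + 1))) : ℝ)

lemma npp_ne (n : ℕ) : npp n ≠ 0 := by
  unfold npp
  exact_mod_cast (Fintype.card_pos (α := Equiv.Perm (Fin (n + 1)))).ne'

/-- its alternatization -/
def all (n : ℕ) : C5 [⋀^Fin (n + 1)]→ₗ[ℝ] MM := MultilinearMap.alternatization (mlt n)

lemma all_anti (n : ℕ) (v : Fin (n + 1) → C5) (hv : ∀ a b, a ≠ b → ip (v a) (v b) = 0) :
    all n v = npp n • (List.ofFn fun a => gm (v a)).prod := by
  rw [all, MultilinearMap.alternatization_apply]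
  have h1 : ∀ σ : Equiv.Perm (Fin (n + 1)), Equiv.Perm.sign σ • (mlt n).domDomCongr σ v =
      (List.ofFn fun a => gm (v a)).prod := by
    intro σ
    have h2 : (mlt n).domDomCongr σ v = (List.ofFn ((fun a => gm (v a)) ∘ σ)).prod := rfl
    rw [h2, perm_prod σ _ (fun a b hab => gm_anti (hv a b hab)), smul_smul]
    simp
  rw [Finset.sum_congr rfl fun σ _ => h1 σ, Finset.sum_const, Finset.card_univ,
    ← Nat.cast_smul_eq_nsmul ℝ, npp]

lemma alt_det {R M N ι : Type*} [CommRing R] [AddCommGroup M] [Module R M] [AddCommGroup N]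
    [Module R N] [Fintype ι] [DecidableEq ι] (e : Module.Basis ι R M) (g : M [⋀^ι]→ₗ[R] N)
    (v : ι → M) : g v = e.det v • g e := by
  have h : g = (LinearMap.toSpanSingleton R N (g e)).compAlternatingMap e.det := by
    refine Module.Basis.ext_alternating e fun w hw => ?_
    let σ : Equiv.Perm ι := Equiv.ofBijective w (Finite.injective_iff_bijective.1 hw)
    have h1 : (fun i => e (w i)) = e ∘ σ := rfl
    rw [h1, AlternatingMap.map_perm]
    simp only [LinearMap.compAlternatingMap_apply, LinearMap.toSpanSingleton_apply]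
    rw [AlternatingMap.map_perm, Module.Basis.det_self]
    rcases Int.units_eq_one_or (Equiv.Perm.sign σ) with h2 | h2 <;> rw [h2] <;> simp
  conv_lhs => rw [h]
  simp only [LinearMap.compAlternatingMap_apply, LinearMap.toSpanSingleton_apply]

lemma exists_al : ∃ (g : C5 [⋀^Fin 10]→ₗ[ℝ] MM) (c : ℝ), c ≠ 0 ∧ ∀ v : Fin 10 → C5,
    (∀ a b, a ≠ b → ip (v a) (v b) = 0) → g v = c • (List.ofFn fun a => gm (v a)).prod :=
  ⟨all 9, npp 9, npp_ne 9, all_anti 9⟩

/-- the product over the image of the standard basis -/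
def NN (F : C5 →ₗ[ℝ] C5) : MM := (List.ofFn fun a => gm (F (rr a))).prod

lemma ip_rr (a b : Fin 10) : ip (rr a) (rr b) = if a = b then 1 else 0 := by
  rw [← co_eq_ip, ← bs_apply]
  have h1 : bs.equivFun = co := Module.Basis.equivFun_ofEquivFun co
  rw [← h1, Module.Basis.equivFun_self]
  simp [eq_comm]

theorem NN_det (F : C5 →ₗ[ℝ] C5) (hF : ∀ u v, ip (F u) (F v) = ip u v) :
    NN F = LinearMap.det F • NN LinearMap.id := by
  obtain ⟨al, np, np_ne, al_anti⟩ := exists_al
  have h1 : al (fun a => F (rr a)) = np • NN F := by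
    apply al_anti
    intro a b hab
    rw [hF, ip_rr, if_neg hab]
  have h2 : al bs = np • NN LinearMap.id := by
    have : (bs : Fin 10 → C5) = fun a => rr a := by funext a; rw [bs_apply]
    rw [this]
    apply al_anti
    intro a b hab
    rw [ip_rr, if_neg hab]
  have h3 := alt_det bs al (fun a => F (rr a))
  have h4 : (fun a => F (rr a)) = F ∘ bs := by
    funext a; simp [bs_apply]
  rw [h1, h2, h4, Module.Basis.det_comp, Module.Basis.det_self, mul_one] at h3
  rw [smul_comm] at h3
  exact smul_right_injective MM np_ne h3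

lemma list_herm (l : List MM) (h1 : ∀ x ∈ l, xᴴ = x) (h2 : ∀ x ∈ l, x * x = 1) :
    l.prod * (l.prod)ᴴ = 1 := by
  induction l with
  | nil => simp
  | cons x l ih =>
    rw [List.prod_cons, conjTranspose_mul, h1 x (by simp)]
    have h3 := ih (fun y hy => h1 y (by simp [hy])) (fun y hy => h2 y (by simp [hy]))
    calc x * l.prod * ((l.prod)ᴴ * x) = x * (l.prod * (l.prod)ᴴ) * x := by noncomm_ring
      _ = 1 := by rw [h3, mul_one, h2 x (by simp)]

lemma NN_unit (F : C5 →ₗ[ℝ] C5) (hF : ∀ u v, ip (F u) (F v) = ip u v) :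
    NN F * (NN F)ᴴ = 1 := by
  apply list_herm
  · intro x hx
    rw [List.mem_ofFn] at hx
    obtain ⟨a, rfl⟩ := hx
    exact gm_herm _
  · intro x hx
    rw [List.mem_ofFn] at hx
    obtain ⟨a, rfl⟩ := hx
    apply gm_sq
    rw [hF, ip_rr, if_pos rfl]

theorem det_sq (F : C5 →ₗ[ℝ] C5) (hF : ∀ u v, ip (F u) (F v) = ip u v) :
    LinearMap.det F * LinearMap.det F = 1 := by
  have h1 := NN_unit F hF
  have h2 := NN_unit LinearMap.id (fun _ _ => rfl)
  rw [NN_det F hF, conjTranspose_smul, smul_mul_smul_comm, h2] at h1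
  have h3 := congrFun (congrFun h1 ∅) ∅
  have h4 : ((LinearMap.det F * LinearMap.det F : ℝ) : ℂ) = ((1 : ℝ) : ℂ) := by
    simpa using h3
  exact Complex.ofReal_injective h4

/-- the number of ... product over the standard basis -/
theorem NN_id : NN LinearMap.id = Complex.I • Par := by
  have h0 : ∀ i : Fin 5, hp (Pi.single i 1) (Pi.single i 1) = 1 := by
    intro i
    rw [hp, Finset.sum_eq_single i]
    · simp
    · intro j _ hj
      rw [Pi.single_eq_of_ne hj]; simp
    · simp
  have h1 : ∀ i : Fin 5, gm (Pi.single i 1) * gm (Pi.single i Complex.I) =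
      Complex.I • Matrix.diagonal fun A : I5 => if i ∈ A then (-1 : ℂ) else 1 := by
    intro i
    have h2 : (Pi.single i Complex.I : C5) = Complex.I • Pi.single i 1 := by
      rw [← Pi.single_smul]; simp
    rw [h2, gm_gmI _ (h0 i)]
    congr 1
    have h3 : cc (Pi.single i 1) = cr i := by
      rw [cc_apply, Finset.sum_eq_single i]
      · simp
      · intro j _ hj
        rw [Pi.single_eq_of_ne hj, zero_smul]
      · simp
    rw [h3, cr_herm]
    apply Matrix.toLin'.injective
    apply LinearMap.ext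
    intro s
    funext A
    simp only [toLin'_apply, sub_mulVec, smul_mulVec, ← mulVec_mulVec, Pi.sub_apply,
      Pi.smul_apply, cr_mulVec, crT_mulVec, one_mulVec, mulVec_diagonal, smul_eq_mul]
    by_cases hi : i ∈ A
    · have h4 : i ∉ A.erase i := by simp
      rw [if_pos hi, if_neg h4, if_pos hi, Finset.insert_erase hi, sg_erase hi]
      simp only [lt_irrefl, if_false, one_mul]
      linear_combination (-2 * s A) * sg_mul_self i A
    · rw [if_neg hi, if_neg hi]
      ring
  have h5 : NN LinearMap.id = (gm (Pi.single 0 1) * gm (Pi.single 0 Complex.I)) *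
      ((gm (Pi.single 1 1) * gm (Pi.single 1 Complex.I)) *
      ((gm (Pi.single 2 1) * gm (Pi.single 2 Complex.I)) *
      ((gm (Pi.single 3 1) * gm (Pi.single 3 Complex.I)) *
      (gm (Pi.single 4 1) * gm (Pi.single 4 Complex.I))))) := by
    simp only [NN, List.ofFn_succ, List.prod_cons, LinearMap.id_apply, List.ofFn_zero,
      List.prod_nil, mul_one, mul_assoc]
    rfl
  rw [h5, h1, h1, h1, h1, h1]
  simp only [smul_mul_smul_comm, diagonal_mul_diagonal]
  have h6 : Complex.I * (Complex.I * (Complex.I * (Complex.I * Complex.I))) = Complex.I := by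
    have := Complex.I_mul_I
    linear_combination (Complex.I * (Complex.I ^ 2 - 1)) * this
  rw [h6]
  congr 1
  rw [Par]
  congr 1
  funext A
  have h7 : (-1 : ℂ) ^ A.card = ∏ i : Fin 5, if i ∈ A then (-1 : ℂ) else 1 := by
    rw [Finset.prod_ite_mem, Finset.univ_inter, Finset.prod_const]
  rw [h7]
  simp only [Fin.prod_univ_succ, Fin.prod_univ_zero, mul_one]
  rfl

end Pool.Agent.TH615.SD
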