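import Pool.Agent.TH615.SD.Det

/-!
# SD-K5, part 3: adapted frames
-/

open scoped ContDiff Topology
open Set Matrix

noncomputable section

namespace Pool.Agent.TH615.SD
open Pool.Agent.TH179.SD

lemma ip_comm (u v : C5) : ip u v = ip v u := by
  simp only [ip]
  refine Finset.sum_congr rfl fun i _ => ?_
  ring

/-- `ip` as a bilinear map -/
def ipL (u : C5) : C5 →ₗ[ℝ] ℝ where
  toFun v := ip u v
  map_add' v w := by
    simp only [ip, Pi.add_apply, Complex.add_re, Complex.add_im, ← Finset.sum_add_distrib]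
    refine Finset.sum_congr rfl fun i _ => ?_
    ring
  map_smul' c v := by
    simp only [ip, Pi.smul_apply, Complex.smul_re, Complex.smul_im, RingHom.id_apply, smul_eq_mul,
      Finset.mul_sum]
    refine Finset.sum_congr rfl fun i _ => ?_
    ring

lemma ipL_apply (u v : C5) : ipL u v = ip u v := rfl

lemma ip_add_right (u v w : C5) : ip u (v + w) = ip u v + ip u w := (ipL u).map_add v w
lemma ip_smul_right (u v : C5) (c : ℝ) : ip u (c • v) = c * ip u v := (ipL u).map_smul c v
lemma ip_neg_right (u v : C5) : ip u (-v) = -ip u v := (ipL u).map_neg v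
lemma ip_zero_right (u : C5) : ip u 0 = 0 := (ipL u).map_zero
lemma ip_sum_right {ι : Type*} (s : Finset ι) (u : C5) (f : ι → C5) :
    ip u (∑ i ∈ s, f i) = ∑ i ∈ s, ip u (f i) := map_sum (ipL u) f s
lemma ip_add_left (u v w : C5) : ip (u + v) w = ip u w + ip v w := by
  rw [ip_comm, ip_add_right, ip_comm w, ip_comm w]
lemma ip_smul_left (u v : C5) (c : ℝ) : ip (c • u) v = c * ip u v := by
  rw [ip_comm, ip_smul_right, ip_comm]
lemma ip_neg_left (u v : C5) : ip (-u) v = -ip u v := by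
  rw [ip_comm, ip_neg_right, ip_comm]
lemma ip_zero_left (u : C5) : ip 0 u = 0 := by
  rw [ip_comm, ip_zero_right]

lemma ip_self_nonneg (u : C5) : 0 ≤ ip u u := by
  unfold ip
  exact Finset.sum_nonneg fun i _ => add_nonneg (mul_self_nonneg _) (mul_self_nonneg _)

lemma ip_self_eq_zero {u : C5} (h : ip u u = 0) : u = 0 := by
  unfold ip at h
  rw [Finset.sum_eq_zero_iff_of_nonneg
    (fun i _ => add_nonneg (mul_self_nonneg _) (mul_self_nonneg _))] at h
  funext i
  have h1 := h i (Finset.mem_univ i)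
  have h2 : (u i).re = 0 := by nlinarith [mul_self_nonneg (u i).re, mul_self_nonneg (u i).im]
  have h3 : (u i).im = 0 := by nlinarith [mul_self_nonneg (u i).re, mul_self_nonneg (u i).im]
  exact Complex.ext h2 h3

lemma ip_self_eq (u : C5) : ip u u = ∑ i, ‖u i‖ ^ 2 := by
  unfold ip
  refine Finset.sum_congr rfl fun i _ => ?_
  rw [← Complex.normSq_eq_norm_sq, Complex.normSq_apply]

/-- `hp z` as a linear map -/
def hpL (z : C5) : C5 →ₗ[ℂ] ℂ where
  toFun v := hp z v
  map_add' v w := by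
    simp only [hp, Pi.add_apply, mul_add, Finset.sum_add_distrib]
  map_smul' c v := by
    simp only [hp, Pi.smul_apply, RingHom.id_apply, smul_eq_mul, Finset.mul_sum]
    refine Finset.sum_congr rfl fun i _ => ?_
    ring

lemma hp_add_right (u v w : C5) : hp u (v + w) = hp u v + hp u w := (hpL u).map_add v w
lemma hp_smul_right (u v : C5) (c : ℂ) : hp u (c • v) = c * hp u v := (hpL u).map_smul c v
lemma hp_rsmul_right (u v : C5) (c : ℝ) : hp u (c • v) = c * hp u v :=
  (hpL u).map_smul (c : ℂ) v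
lemma hp_neg_right (u v : C5) : hp u (-v) = -hp u v := (hpL u).map_neg v
lemma hp_zero_right (u : C5) : hp u 0 = 0 := (hpL u).map_zero

lemma ipI (z u : C5) : ip (Complex.I • z) u = (hp z u).im := by
  rw [← hp_re, ← hp_conj, hp_smul_right, ← hp_conj z u]
  simp

lemma hp_zero_iff (z u : C5) : hp z u = 0 ↔ ip z u = 0 ∧ ip (Complex.I • z) u = 0 := by
  rw [Complex.ext_iff, hp_re, ipI]
  simp

lemma hp_zero_comm {z u : C5} (h : hp z u = 0) : hp u z = 0 := by
  rw [← hp_conj, h, map_zero]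

/-- pointwise data -/
structure PJ (z : C5) (J : C5 →ₗ[ℝ] C5) : Prop where
  unit : hp z z = 1
  zero : ∀ c : ℂ, J (c • z) = 0
  perp : ∀ u, hp z (J u) = 0
  sq : ∀ u, hp z u = 0 → J (J u) = -u
  isom : ∀ u, hp z u = 0 → ip (J u) (J u) = ip u u
  neg : ∃ (L : V →ₗ[ℝ] C5) (Φ : C5 →ₗ[ℂ] V), Φ z = 0 ∧ (∀ v, hp z (L v) = 0) ∧
    (∀ k : Fin 4, L (Pi.single k Complex.I) = J (L (Pi.single k 1))) ∧
    LinearMap.det ((Φ.restrictScalars ℝ).comp L) < 0

variable {z : C5} {J : C5 →ₗ[ℝ] C5}

lemma PJ.polar (h : PJ z J) {u v : C5} (hu : hp z u = 0) (hv : hp z v = 0) :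
    ip (J u) (J v) = ip u v := by
  have h1 := h.isom (u + v) (by rw [hp_add_right, hu, hv, add_zero])
  rw [map_add, ip_add_left, ip_add_right, ip_add_right, ip_add_left, ip_add_right, ip_add_right,
    h.isom u hu, h.isom v hv, ip_comm (J v), ip_comm v u] at h1
  linarith

lemma PJ.skew (h : PJ z J) {u v : C5} (hu : hp z u = 0) (hv : hp z v = 0) :
    ip (J u) v = -ip u (J v) := by
  rw [← h.polar (h.perp u) hv, h.sq u hu, ip_neg_left]

lemma PJ.skew_self (h : PJ z J) {u : C5} (hu : hp z u = 0) : ip u (J u) = 0 := by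
  have h1 := h.skew hu hu
  rw [ip_comm] at h1
  linarith

/-- the linear map whose kernel is orthogonal to everything constructed so far -/
def orth (z : C5) (J : C5 →ₗ[ℝ] C5) (k : ℕ) (f : Fin k → C5) :
    C5 →ₗ[ℝ] ℂ × (Fin k → ℝ) × (Fin k → ℝ) :=
  ((hpL z).restrictScalars ℝ).prod
    ((LinearMap.pi fun j => ipL (f j)).prod (LinearMap.pi fun j => ipL (J (f j))))

lemma PJ.exists_fr (h : PJ z J) (k : ℕ) : k ≤ 4 → ∃ f : Fin k → C5, (∀ j, hp z (f j) = 0) ∧
    (∀ i j, ip (f i) (f j) = if i = j then 1 else 0) ∧ ∀ i j, ip (f i) (J (f j)) = 0 := by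
  induction k with
  | zero => intro _; exact ⟨fun j => j.elim0, fun j => j.elim0, fun j => j.elim0, fun j => j.elim0⟩
  | succ k ih =>
    intro hk
    obtain ⟨f, h1, h2, h3⟩ := ih (by omega)
    have h4 : LinearMap.ker (orth z J k f) ≠ ⊥ := by
      apply LinearMap.ker_ne_bot_of_finrank_lt
      rw [Module.finrank_prod, Module.finrank_prod, Module.finrank_fintype_fun_eq_card,
        Complex.finrank_real_complex, Fintype.card_fin, Module.finrank_pi_fintype]
      simp only [Complex.finrank_real_complex, Finset.sum_const, Finset.card_univ,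
        Fintype.card_fin, smul_eq_mul]
      omega
    obtain ⟨u, hu, hu0⟩ := Submodule.exists_mem_ne_zero_of_ne_bot h4
    rw [LinearMap.mem_ker] at hu
    have e1 : hp z u = 0 := congrArg Prod.fst hu
    have e2 : ∀ j, ip (f j) u = 0 := fun j => congrFun (congrArg (fun p => p.2.1) hu) j
    have e3 : ∀ j, ip (J (f j)) u = 0 := fun j => congrFun (congrArg (fun p => p.2.2) hu) j
    have e4 : 0 < ip u u := lt_of_le_of_ne (ip_self_nonneg u)
      (fun h => hu0 (ip_self_eq_zero h.symm))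
    set c : ℝ := (Real.sqrt (ip u u))⁻¹ with hc
    have e5 : c * (c * ip u u) = 1 := by
      have h5 : Real.sqrt (ip u u) * Real.sqrt (ip u u) = ip u u := Real.mul_self_sqrt e4.le
      have h6 : Real.sqrt (ip u u) ≠ 0 := (Real.sqrt_pos.2 e4).ne'
      rw [hc]
      nth_rewrite 3 [← h5]
      field_simp
    have hcu : hp z (c • u) = 0 := by rw [hp_rsmul_right, e1, mul_zero]
    refine ⟨Fin.cons (c • u) f, ?_, ?_, ?_⟩
    · intro j
      refine Fin.cases ?_ (fun j => ?_) j
      · simpa using hcu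
      · simpa using h1 j
    · intro i j
      refine Fin.cases ?_ (fun i => ?_) i <;> refine Fin.cases ?_ (fun j => ?_) j
      · simp only [Fin.cons_zero, if_true]
        rw [ip_smul_right, ip_smul_left, e5]
      · simp only [Fin.cons_zero, Fin.cons_succ]
        rw [ip_smul_left, ip_comm, e2, mul_zero, if_neg (Fin.succ_ne_zero j).symm]
      · simp only [Fin.cons_zero, Fin.cons_succ]
        rw [ip_smul_right, e2, mul_zero, if_neg (Fin.succ_ne_zero i)]
      · simp only [Fin.cons_succ, Fin.succ_inj]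
        exact h2 i j
    · intro i j
      refine Fin.cases ?_ (fun i => ?_) i <;> refine Fin.cases ?_ (fun j => ?_) j
      · simp only [Fin.cons_zero]
        exact h.skew_self hcu
      · simp only [Fin.cons_zero, Fin.cons_succ]
        rw [ip_smul_left, ip_comm, e3, mul_zero]
      · simp only [Fin.cons_zero, Fin.cons_succ]
        have h7 := h.skew (h1 i) e1
        rw [map_smul, ip_smul_right]
        rw [e3] at h7
        have h8 : ip (f i) (J u) = 0 := by linarith
        rw [h8, mul_zero]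
      · simp only [Fin.cons_succ]
        exact h3 i j

/-- an adapted frame -/
structure Fr (z : C5) (J : C5 →ₗ[ℝ] C5) (f g : Fin 4 → C5) : Prop where
  unit : hp z z = 1
  zf : ∀ j, hp z (f j) = 0
  zg : ∀ j, hp z (g j) = 0
  ff : ∀ i j, ip (f i) (f j) = if i = j then 1 else 0
  gg : ∀ i j, ip (g i) (g j) = if i = j then 1 else 0
  fg : ∀ i j, ip (f i) (g j) = 0
  Jf : ∀ j, J (f j) = g j
  Jg : ∀ j, J (g j) = -f j

lemma PJ.exists_Fr (h : PJ z J) : ∃ f g, Fr z J f g := by
  obtain ⟨f, h1, h2, h3⟩ := h.exists_fr 4 le_rfl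
  refine ⟨f, fun j => J (f j), h.unit, h1, fun j => h.perp _, h2, ?_, h3, fun j => rfl,
    fun j => h.sq _ (h1 j)⟩
  intro i j
  rw [h.polar (h1 i) (h1 j), h2]

/-- the map `V → z^⊥` of a frame -/
def F4 (f g : Fin 4 → C5) : V →ₗ[ℝ] C5 :=
  ∑ k, ((Complex.reLm ∘ₗ (LinearMap.proj k : V →ₗ[ℝ] ℂ)).smulRight (f k) +
    (Complex.imLm ∘ₗ (LinearMap.proj k : V →ₗ[ℝ] ℂ)).smulRight (g k))

lemma F4_apply (f g : Fin 4 → C5) (v : V) :
    F4 f g v = ∑ k, ((v k).re • f k + (v k).im • g k) := by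
  simp [F4, LinearMap.sum_apply]

/-- the tail of a vector -/
def tl : C5 →ₗ[ℂ] V := LinearMap.pi fun k => LinearMap.proj k.succ

lemma tl_apply (v : C5) (k : Fin 4) : tl v k = v k.succ := rfl

/-- the map of a frame -/
def F5 (z : C5) (f g : Fin 4 → C5) : C5 →ₗ[ℝ] C5 :=
  ((LinearMap.proj 0 : C5 →ₗ[ℂ] ℂ).smulRight z).restrictScalars ℝ +
    (F4 f g) ∘ₗ (tl.restrictScalars ℝ)

lemma F5_apply (z : C5) (f g : Fin 4 → C5) (v : C5) :
    F5 z f g v = v 0 • z + F4 f g (tl v) := rfl

/-- the values of `F5` on the basis -/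
def ww (z : C5) (f g : Fin 4 → C5) : Fin 10 → C5 :=
  ![z, Complex.I • z, f 0, g 0, f 1, g 1, f 2, g 2, f 3, g 3]

lemma F5_rr (z : C5) (f g : Fin 4 → C5) (a : Fin 10) : F5 z f g (rr a) = ww z f g a := by
  rw [F5_apply, F4_apply]
  simp only [tl_apply]
  simp only [Fin.sum_univ_four]
  fin_cases a <;> simp [rr, ww]

end Pool.Agent.TH615.SD
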