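import Pool.Agent.TH615.SD.Frame

/-!
# SD-K5, part 4: the operator `D`
-/

open scoped ContDiff Topology
open Set Matrix

noncomputable section

namespace Pool.Agent.TH615.SD
open Pool.Agent.TH179.SD

variable {z : C5} {J : C5 →ₗ[ℝ] C5} {f g : Fin 4 → C5}

lemma isom_of_basis (F : C5 →ₗ[ℝ] C5)
    (h : ∀ a b, ip (F (rr a)) (F (rr b)) = if a = b then 1 else 0) (u v : C5) :
    ip (F u) (F v) = ip u v := by
  have h1 : F u = ∑ a, ip (rr a) u • F (rr a) := by
    conv_lhs => rw [← sum_co u]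
    rw [map_sum]; simp
  have h2 : F v = ∑ a, ip (rr a) v • F (rr a) := by
    conv_lhs => rw [← sum_co v]
    rw [map_sum]; simp
  rw [ip_eq_sum u v, h2, ip_sum_right]
  refine Finset.sum_congr rfl fun b _ => ?_
  rw [ip_smul_right, h1, ip_comm _ (F (rr b)), ip_sum_right, Finset.sum_eq_single b]
  · rw [ip_smul_right, h, if_pos rfl]; ring
  · intro a _ hab
    rw [ip_smul_right, h, if_neg hab.symm, mul_zero]
  · simp

lemma Fr.ww_ip (h : Fr z J f g) (a b : Fin 10) :
    ip (ww z f g a) (ww z f g b) = if a = b then 1 else 0 := by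
  have z1 : ip z z = 1 := by rw [← hp_re, h.unit]; rfl
  have z2 : ip (Complex.I • z) (Complex.I • z) = 1 := by
    rw [ipI, hp_smul_right, h.unit]; simp
  have z3 : ip z (Complex.I • z) = 0 := ip_smul_I z
  have z4 : ip (Complex.I • z) z = 0 := by rw [ip_comm, z3]
  have z5 : ∀ j, ip z (f j) = 0 := fun j => ((hp_zero_iff _ _).1 (h.zf j)).1
  have z6 : ∀ j, ip z (g j) = 0 := fun j => ((hp_zero_iff _ _).1 (h.zg j)).1
  have z7 : ∀ j, ip (Complex.I • z) (f j) = 0 := fun j => ((hp_zero_iff _ _).1 (h.zf j)).2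
  have z8 : ∀ j, ip (Complex.I • z) (g j) = 0 := fun j => ((hp_zero_iff _ _).1 (h.zg j)).2
  have z9 : ∀ j, ip (f j) z = 0 := fun j => by rw [ip_comm, z5]
  have z10 : ∀ j, ip (g j) z = 0 := fun j => by rw [ip_comm, z6]
  have z11 : ∀ j, ip (f j) (Complex.I • z) = 0 := fun j => by rw [ip_comm, z7]
  have z12 : ∀ j, ip (g j) (Complex.I • z) = 0 := fun j => by rw [ip_comm, z8]
  have z13 : ∀ i j, ip (g i) (f j) = 0 := fun i j => by rw [ip_comm, h.fg]
  fin_cases a <;> fin_cases b <;>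
    simp [ww, z1, z2, z3, z4, z5, z6, z7, z8, z9, z10, z11, z12, z13, h.ff, h.gg, h.fg]

lemma Fr.isom (h : Fr z J f g) (u v : C5) : ip (F5 z f g u) (F5 z f g v) = ip u v := by
  apply isom_of_basis
  intro a b
  rw [F5_rr, F5_rr, h.ww_ip]

/-- independence of the orthonormal basis -/
theorem basis_indep (F : C5 →ₗ[ℝ] C5) (hF : ∀ u v, ip (F u) (F v) = ip u v)
    (T : C5 →ₗ[ℝ] C5) :
    ∑ a, gm (F (rr a)) * gm (T (F (rr a))) = ∑ a, gm (rr a) * gm (T (rr a)) := by
  let m : Matrix (Fin 10) (Fin 10) ℝ := Matrix.of fun b a => ip (rr b) (F (rr a))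
  have h1 : mᵀ * m = 1 := by
    ext a b
    rw [Matrix.mul_apply, Matrix.one_apply, ← ip_rr a b, ← hF, ip_eq_sum]
    rfl
  have h2 : m * mᵀ = 1 := mul_eq_one_comm.1 h1
  have h3 : ∀ a, F (rr a) = ∑ b, m b a • rr b := fun a => (sum_co (F (rr a))).symm
  have h4 : ∀ a, gm (F (rr a)) * gm (T (F (rr a))) =
      ∑ b, ∑ c, (m b a * m c a) • (gm (rr b) * gm (T (rr c))) := by
    intro a
    rw [h3, map_sum, map_sum, map_sum, Finset.sum_mul_sum]
    refine Finset.sum_congr rfl fun b _ => Finset.sum_congr rfl fun c _ => ?_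
    rw [map_smul, map_smul, map_smul, smul_mul_smul_comm]
  rw [Finset.sum_congr rfl fun a _ => h4 a, Finset.sum_comm]
  refine Finset.sum_congr rfl fun b _ => ?_
  rw [Finset.sum_comm, Finset.sum_eq_single b]
  · rw [← Finset.sum_smul]
    have h5 := congrFun (congrFun h2 b) b
    rw [Matrix.mul_apply, Matrix.one_apply, if_pos rfl] at h5
    simp only [Matrix.transpose_apply] at h5
    rw [h5, one_smul]
  · intro c _ hc
    rw [← Finset.sum_smul]
    have h5 := congrFun (congrFun h2 b) c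
    rw [Matrix.mul_apply, Matrix.one_apply, if_neg hc.symm] at h5
    simp only [Matrix.transpose_apply] at h5
    rw [h5, zero_smul]
  · simp

/-- the operator `D` -/
def DD (J : C5 →ₗ[ℝ] C5) : MM := (Complex.I / 4) • ∑ a, gm (rr a) * gm (J (rr a))

lemma Fr.DD_eq (h : Fr z J f g) (h0 : ∀ c : ℂ, J (c • z) = 0) :
    DD J = (Complex.I / 2) • ∑ k, gm (f k) * gm (g k) := by
  have h1 := basis_indep (F5 z f g) h.isom J
  have h2 : J z = 0 := by simpa using h0 1
  have h3 : J (Complex.I • z) = 0 := h0 _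
  have h4 : ∀ k, gm (g k) * gm (J (g k)) = gm (f k) * gm (g k) := by
    intro k
    rw [h.Jg, map_neg, mul_neg, gm_anti (h.fg k k)]
  rw [DD, ← h1]
  have h5 : ∑ a, gm (F5 z f g (rr a)) * gm (J (F5 z f g (rr a))) =
      (2 : ℂ) • ∑ k, gm (f k) * gm (g k) := by
    simp only [F5_rr]
    simp only [Fin.sum_univ_succ, Fin.sum_univ_zero, ww]
    simp [h2, h3, h.Jf, h4, two_smul]
    abel
  rw [h5, smul_smul]
  congr 1
  ring

end Pool.Agent.TH615.SD
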