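import Pool.Agent.TH615.SD.Frame2

/-!
# SD-K5, part 5: the orientation
-/

open scoped ContDiff Topology
open Set Matrix

noncomputable section

namespace Pool.Agent.TH615.SD
open Pool.Agent.TH179.SD

variable {z : C5} {J : C5 →ₗ[ℝ] C5} {f g : Fin 4 → C5}

lemma Fr.surj (h : Fr z J f g) : Function.Surjective (F5 z f g) := by
  apply LinearMap.surjective_of_injective
  intro u v huv
  have h1 : F5 z f g (u - v) = 0 := by rw [map_sub, huv, sub_self]
  have h2 := h.isom (u - v) (u - v)
  rw [h1, ip_zero_left] at h2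
  exact sub_eq_zero.1 (ip_self_eq_zero h2.symm)

lemma Fr.expand (h : Fr z J f g) (u : C5) (hu : hp z u = 0) :
    F4 f g (fun k => ⟨ip (f k) u, ip (g k) u⟩) = u := by
  obtain ⟨x, rfl⟩ := h.surj u
  have h1 : F5 z f g x = ∑ a, ip (ww z f g a) (F5 z f g x) • ww z f g a := by
    conv_lhs => rw [← sum_co x]
    rw [map_sum]
    refine Finset.sum_congr rfl fun a _ => ?_
    rw [map_smul, F5_rr, ← h.isom (rr a) x, F5_rr]
  have h2 := (hp_zero_iff _ _).1 hu
  rw [F4_apply]
  conv_rhs => rw [h1]
  simp only [Fin.sum_univ_succ, Fin.sum_univ_zero, ww]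
  simp [h2.1, h2.2]
  abel

/-- the comparison map -/
def TR (f g : Fin 4 → C5) (L : V →ₗ[ℝ] C5) : V →ₗ[ℝ] V where
  toFun v k := ⟨ip (f k) (L v), ip (g k) (L v)⟩
  map_add' u v := by
    funext k
    apply Complex.ext <;> simp [map_add, ip_add_right]
  map_smul' c v := by
    funext k
    apply Complex.ext <;> simp [ip_smul_right]

lemma det_nonneg_of_complex (T : V →ₗ[ℂ] V) : 0 ≤ LinearMap.det (T.restrictScalars ℝ) := by
  rw [LinearMap.det_restrictScalars, Algebra.norm_complex_apply]
  exact Complex.normSq_nonneg _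

lemma det_nonneg_of_complex5 (T : C5 →ₗ[ℂ] C5) : 0 ≤ LinearMap.det (T.restrictScalars ℝ) := by
  rw [LinearMap.det_restrictScalars, Algebra.norm_complex_apply]
  exact Complex.normSq_nonneg _

/-- splitting off the first coordinate -/
def kap : C5 ≃ₗ[ℝ] ℂ × V where
  toFun v := (v 0, tl v)
  map_add' u v := rfl
  map_smul' c v := rfl
  invFun p := Fin.cons p.1 p.2
  left_inv v := by
    funext i
    refine Fin.cases ?_ (fun i => ?_) i <;> simp [tl_apply]
  right_inv p := by
    apply Prod.ext
    · simp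
    · funext k; simp [tl_apply]

lemma L_I (h : PJ z J) (L : V →ₗ[ℝ] C5) (h1 : ∀ v, hp z (L v) = 0)
    (h2 : ∀ k : Fin 4, L (Pi.single k Complex.I) = J (L (Pi.single k 1))) (v : V) :
    L (Complex.I • v) = J (L v) := by
  have e1 : ∀ (k : Fin 4) (c : ℂ), L (Pi.single k (Complex.I * c)) = J (L (Pi.single k c)) := by
    intro k c
    have e2 : (Pi.single k (Complex.I * c) : V) =
        c.re • (Pi.single k Complex.I : V) + (-c.im) • (Pi.single k 1 : V) := by
      rw [← Pi.single_smul, ← Pi.single_smul, ← Pi.single_add]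
      congr 1
      apply Complex.ext <;> simp
    have e3 : (Pi.single k c : V) =
        c.re • (Pi.single k 1 : V) + c.im • (Pi.single k Complex.I : V) := by
      rw [← Pi.single_smul, ← Pi.single_smul, ← Pi.single_add]
      congr 1
      apply Complex.ext <;> simp
    rw [e2, e3, map_add, map_smul, map_smul, map_add, map_smul, map_smul, map_add, map_smul,
      map_smul, h2, h.sq _ (h1 _), smul_neg, neg_smul]
  have e4 : v = ∑ k, Pi.single k (v k) := by
    funext i
    simp [Finset.sum_apply, Pi.single_apply]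
  have e5 : Complex.I • v = ∑ k, Pi.single k (Complex.I * v k) := by
    funext i
    simp [Finset.sum_apply, Pi.single_apply]
  rw [e5, map_sum, Finset.sum_congr rfl fun k _ => e1 k (v k), ← map_sum, ← map_sum, ← e4]

theorem det_neg (h : PJ z J) (hf : Fr z J f g) : LinearMap.det (F5 z f g) < 0 := by
  obtain ⟨L, Φ, hz, h1, h2, h3⟩ := h.neg
  have h4 : ∀ v, F4 f g (TR f g L v) = L v := fun v => hf.expand (L v) (h1 v)
  have h5 : ∀ v, TR f g L (Complex.I • v) = Complex.I • TR f g L v := by
    intro v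
    funext k
    have e1 : TR f g L (Complex.I • v) k = ⟨ip (f k) (J (L v)), ip (g k) (J (L v))⟩ := by
      rw [← L_I h L h1 h2]; rfl
    have e2 : (Complex.I • TR f g L v) k = Complex.I * ⟨ip (f k) (L v), ip (g k) (L v)⟩ := rfl
    have e3 : ip (f k) (J (L v)) = -ip (g k) (L v) := by
      have := h.skew (hf.zf k) (h1 v)
      rw [hf.Jf] at this
      linarith
    have e4 : ip (g k) (J (L v)) = ip (f k) (L v) := by
      rw [← hf.Jf, h.polar (hf.zf k) (h1 v)]
    rw [e1, e2, e3, e4]
    apply Complex.ext <;> simp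
  let T : V →ₗ[ℂ] V :=
    { toFun := TR f g L
      map_add' := (TR f g L).map_add
      map_smul' := by
        intro c v
        have e1 : c • v = c.re • v + c.im • (Complex.I • v) := by
          funext k
          apply Complex.ext <;> simp <;> ring
        rw [e1, map_add, map_smul, map_smul, h5]
        funext k
        apply Complex.ext <;> simp <;> ring }
  have h6 : T.restrictScalars ℝ = TR f g L := rfl
  have h7 : 0 ≤ LinearMap.det (TR f g L) := h6 ▸ det_nonneg_of_complex T
  have h8 : (Φ.restrictScalars ℝ).comp L = ((Φ.restrictScalars ℝ).comp (F4 f g)) * TR f g L := by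
    apply LinearMap.ext
    intro v
    change Φ (L v) = Φ (F4 f g (TR f g L v))
    rw [h4]
  rw [h8, map_mul] at h3
  have h9 : LinearMap.det ((Φ.restrictScalars ℝ).comp (F4 f g)) < 0 := by
    by_contra hc
    push Not at hc
    exact absurd (mul_nonneg hc h7) (not_le.2 h3)
  let Ph : C5 →ₗ[ℂ] C5 := LinearMap.pi (Fin.cons (hpL z) fun k => (LinearMap.proj k) ∘ₗ Φ)
  have h10 : (Ph.restrictScalars ℝ) * F5 z f g = (kap.symm : ℂ × V →ₗ[ℝ] C5) ∘ₗ
      ((LinearMap.id : ℂ →ₗ[ℝ] ℂ).prodMap ((Φ.restrictScalars ℝ).comp (F4 f g))) ∘ₗ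
      (kap.symm.symm : C5 →ₗ[ℝ] ℂ × V) := by
    apply LinearMap.ext
    intro v
    change Ph (F5 z f g v) = Fin.cons (v 0) (Φ (F4 f g (tl v)))
    have e1 : hp z (F4 f g (tl v)) = 0 := by
      rw [F4_apply]
      have : hpL z (∑ k, ((tl v k).re • f k + (tl v k).im • g k)) = 0 := by
        rw [map_sum]
        refine Finset.sum_eq_zero fun k _ => ?_
        change hp z _ = 0
        rw [hp_add_right, hp_rsmul_right, hp_rsmul_right, hf.zf, hf.zg]
        simp
      exact this
    funext i
    refine Fin.cases ?_ (fun i => ?_) i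
    · change hp z (F5 z f g v) = v 0
      rw [F5_apply, hp_add_right, hp_smul_right, e1, hf.unit]; ring
    · change Φ (F5 z f g v) i = Φ (F4 f g (tl v)) i
      rw [F5_apply, map_add, map_smul, hz, smul_zero, zero_add]
  have h11 : LinearMap.det ((Ph.restrictScalars ℝ) * F5 z f g) =
      LinearMap.det ((Φ.restrictScalars ℝ).comp (F4 f g)) := by
    rw [h10, LinearMap.det_conj, LinearMap.det_prodMap, LinearMap.det_id, one_mul]
  rw [map_mul] at h11
  by_contra hc
  push Not at hc
  have := mul_nonneg (det_nonneg_of_complex5 Ph) hc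
  rw [h11] at this
  exact absurd this (not_le.2 h9)

theorem det_eq (h : PJ z J) (hf : Fr z J f g) : LinearMap.det (F5 z f g) = -1 := by
  have h1 := det_neg h hf
  have h2 := det_sq (F5 z f g) hf.isom
  nlinarith

end Pool.Agent.TH615.SD
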